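import Mathlib

/-!
# Product spaces and covering by null sets: definitions
-/

set_option autoImplicit false

namespace Pool.Agent.Helper24.NW2

open Set MeasureTheory Cardinal

universe u

/-- the uniform distribution on `[0,1]` -/
noncomputable def lam : Measure ℝ := volume.restrict (Icc 0 1)

instance : IsProbabilityMeasure lam := ⟨by simp [lam]⟩

/-- the product of uniform distributions -/
noncomputable def Lam (I : Type u) : Measure (I → ℝ) := Measure.infinitePi fun _ => lam

instance (I : Type u) : IsProbabilityMeasure (Lam I) := by unfold Lam; infer_instance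

/-- the `σ`-algebra generated by the coordinates in `J` -/
@[reducible] def sig {I : Type u} (J : Set I) : MeasurableSpace (I → ℝ) :=
  ⨆ i ∈ J, MeasurableSpace.comap (fun v : I → ℝ => v i) inferInstance

/-- the points that satisfy finitely many constraints of the form `v i < q` or `q ≤ v i` -/
def box {I : Type u} (l : List (I × ℚ × Bool)) : Set (I → ℝ) :=
  {v | ∀ c ∈ l, (v c.1 < (c.2.1 : ℝ) ↔ c.2.2 = true)}

/-- no compact Hausdorff space with a Radon probability measure is covered by `κ` null sets -/
def NoCover (κ : Cardinal.{u}) : Prop :=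
  ∀ (Ω : Type u) [TopologicalSpace Ω] [CompactSpace Ω] [T2Space Ω] [MeasurableSpace Ω]
    [BorelSpace Ω] (μ : Measure Ω) [IsProbabilityMeasure μ] [μ.InnerRegular] (ι : Type u)
    (A : ι → Set Ω), #ι = κ → (∀ i, μ (A i) = 0) → ⋃ i, A i ≠ Set.univ

end Pool.Agent.Helper24.NW2
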