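import Pool.Agent.Helper50.NW.Limit
import Pool.Agent.Helper24.NW2.Defs


/-!
# Network weight of convex compacta: module Lim
-/

set_option autoImplicit false
set_option linter.unusedSectionVars false

namespace Pool.Agent.Helper24.NW2

open Set MeasureTheory Cardinal Filter Topology ProbabilityTheory
open scoped ENNReal

universe u

open Pool.Agent.Helper50.NW in
/-- a boundary measure for the midpoint of two points -/
theorem exists_boundary_measure_two {E : Type u} [AddCommGroup E] [Module ℝ E]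
    [TopologicalSpace E] [IsTopologicalAddGroup E] [ContinuousSMul ℝ E] [LocallyConvexSpace ℝ E]
    [T2Space E] {K : Set E} (hK : IsCompact K) (x y : K) :
    ∃ μ : @Measure K (borel K), @IsProbabilityMeasure K (borel K) μ ∧
      @Measure.InnerRegular K (borel K) _ μ ∧
      (∀ g : C(K, ℝ), g ∈ affSet K →
        |g x| + |g y| ≤ 2 * @integral K ℝ _ _ (borel K) μ (fun x => |g x|)) ∧
      ∀ g : C(K, ℝ), g ∈ affSet K → ∀ ε : ℝ, 0 < ε →
        ∃ (H : Finset C(K, ℝ)) (hH : H.Nonempty),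
          (∀ h ∈ H, h ∈ affSet K ∧ ∀ x, g x ^ 2 ≤ h x) ∧
          @integral K ℝ _ _ (borel K) μ (fun x => H.inf' hH (fun h => h x)) ≤
            @integral K ℝ _ _ (borel K) μ (fun x => g x ^ 2) + ε := by
  classical
  letI : MeasurableSpace K := borel K
  have : BorelSpace K := ⟨rfl⟩
  have : CompactSpace K := isCompact_iff_compactSpace.1 hK
  obtain ⟨μ₁, hp₁, hr₁, hb₁, hm₁⟩ := exists_boundary_measure hK x
  obtain ⟨μ₂, hp₂, hr₂, hb₂, hm₂⟩ := exists_boundary_measure hK y
  have hint : ∀ (φ : K → ℝ), Continuous φ → Integrable φ μ₁ ∧ Integrable φ μ₂ :=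
    fun φ hφ => ⟨hφ.integrable_of_hasCompactSupport (HasCompactSupport.of_compactSpace _),
      hφ.integrable_of_hasCompactSupport (HasCompactSupport.of_compactSpace _)⟩
  have hI : ∀ (φ : K → ℝ), Continuous φ →
      ∫ x, φ x ∂((2 : ℝ≥0∞)⁻¹ • (μ₁ + μ₂)) = (∫ x, φ x ∂μ₁ + ∫ x, φ x ∂μ₂) / 2 := by
    intro φ hφ
    rw [integral_smul_measure, integral_add_measure (hint φ hφ).1 (hint φ hφ).2,
      ENNReal.toReal_inv, ENNReal.toReal_ofNat, smul_eq_mul]
    ring
  refine ⟨(2 : ℝ≥0∞)⁻¹ • (μ₁ + μ₂), ⟨?_⟩, inferInstance, ?_, ?_⟩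
  · rw [Measure.smul_apply, Measure.add_apply, measure_univ, measure_univ, smul_eq_mul,
      one_add_one_eq_two]
    exact ENNReal.inv_mul_cancel two_ne_zero ENNReal.ofNat_ne_top
  · intro g hg
    rw [hI _ (by fun_prop)]
    have h1 : |g x| ≤ ∫ z, |g z| ∂μ₁ := by
      rw [← hb₁ g hg]
      exact abs_integral_le_integral_abs
    have h2 : |g y| ≤ ∫ z, |g z| ∂μ₂ := by
      rw [← hb₂ g hg]
      exact abs_integral_le_integral_abs
    linarith
  · intro g hg ε hε
    obtain ⟨H₁, hne₁, ha₁, hi₁⟩ := hm₁ g hg ε hε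
    obtain ⟨H₂, hne₂, ha₂, hi₂⟩ := hm₂ g hg ε hε
    have hne : (H₁ ∪ H₂).Nonempty := hne₁.mono Finset.subset_union_left
    refine ⟨H₁ ∪ H₂, hne, ?_, ?_⟩
    · intro h hh
      rcases Finset.mem_union.1 hh with hh | hh
      · exact ha₁ h hh
      · exact ha₂ h hh
    · have hc : ∀ (H : Finset C(K, ℝ)) (hH : H.Nonempty),
          Continuous fun x : K => H.inf' hH (fun h => h x) :=
        fun H hH => Continuous.finset_inf'_apply hH fun h _ => h.continuous
      rw [hI _ (hc _ hne), hI _ (by fun_prop)]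
      have e1 : ∫ x, (H₁ ∪ H₂).inf' hne (fun h => h x) ∂μ₁ ≤
          ∫ x, H₁.inf' hne₁ (fun h => h x) ∂μ₁ := by
        refine integral_mono (hint _ (hc _ hne)).1 (hint _ (hc _ hne₁)).1 fun z => ?_
        exact Finset.inf'_mono _ Finset.subset_union_left hne₁
      have e2 : ∫ x, (H₁ ∪ H₂).inf' hne (fun h => h x) ∂μ₂ ≤
          ∫ x, H₂.inf' hne₂ (fun h => h x) ∂μ₂ := by
        refine integral_mono (hint _ (hc _ hne)).2 (hint _ (hc _ hne₂)).2 fun z => ?_
        exact Finset.inf'_mono _ Finset.subset_union_right hne₂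
      linarith

open Pool.Agent.Helper50.NW in
/-- **Limit theorem with selections.** -/
theorem selection_limit {E : Type u} [AddCommGroup E] [Module ℝ E] [TopologicalSpace E]
    [IsTopologicalAddGroup E] [ContinuousSMul ℝ E] [LocallyConvexSpace ℝ E] [T2Space E]
    {K : Set E} (hK : IsCompact K) {ι T : Type u} (D : ι → Set T) (f : ι → C(K, ℝ))
    (hf : ∀ i, f i ∈ affSet K) (M : ℝ) (hM : ∀ i x, |f i x| ≤ M)
    (hsel : ∀ (μ : @Measure K (borel K)), @IsProbabilityMeasure K (borel K) μ →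
      @Measure.InnerRegular K (borel K) _ μ →
      ∀ Q : ι → Set K, (∀ i, @MeasurableSet K (borel K) (Q i)) →
      ∀ δ : ℝ≥0∞, δ ≠ 0 → (∀ i, δ ≤ μ (Q i)) →
      ∃ S : T → ι, (∀ t, t ∈ D (S t)) ∧ ∀ F : Finset T, μ (⋂ t ∈ F, Q (S t)) ≠ 0)
    (h0 : ∀ b : K, (b : E) ∈ extremePoints ℝ K → ∀ ε : ℝ, 0 < ε →
      ∃ t, ∀ i, t ∈ D i → |f i b| ≤ ε)
    (x y : K) {c : ℝ} (hc : 0 < c) (hxy : ∀ i, c ≤ |f i x - f i y|) : False := by
  classical
  letI : MeasurableSpace K := borel K
  have : BorelSpace K := ⟨rfl⟩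
  have : CompactSpace K := isCompact_iff_compactSpace.1 hK
  obtain ⟨μ, hμp, hμr, hbar, hmax⟩ := exists_boundary_measure_two hK x y
  have hHex : ∀ (g : C(K, ℝ)) (j : ℕ), ∃ H : Finset C(K, ℝ), g ∈ affSet K →
      ∃ hne : H.Nonempty, (∀ h ∈ H, h ∈ affSet K ∧ ∀ x, g x ^ 2 ≤ h x) ∧
        ∫ x, H.inf' hne (fun h => h x) ∂μ ≤ ∫ x, g x ^ 2 ∂μ + 1 / (j + 1) := by
    intro g j
    by_cases hg : g ∈ affSet K
    · obtain ⟨H, hne, h1, h2⟩ := hmax g hg (1 / (j + 1)) (by positivity)
      exact ⟨H, fun _ => ⟨hne, h1, h2⟩⟩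
    · exact ⟨∅, fun h => absurd h hg⟩
  choose H hH using hHex
  have hH' : ∀ g ∈ affSet K, ∀ j, ∃ hne : (H g j).Nonempty,
      (∀ h ∈ H g j, h ∈ affSet K ∧ ∀ x, g x ^ 2 ≤ h x) ∧
        ∫ x, (H g j).inf' hne (fun h => h x) ∂μ ≤ ∫ x, g x ^ 2 ∂μ + 1 / (j + 1) :=
    fun g hg j => hH g j hg
  let W : ι → Set C(K, ℝ) := fun i => clOffU H {f i}
  have hWaff : ∀ i, W i ⊆ affSet K := by
    intro i
    refine clOffU_subset H (by rintro _ rfl; exact hf i) fun g hg j h hh => ?_
    obtain ⟨hne, h1, -⟩ := hH' g hg j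
    exact (h1 h hh).1
  have hgood : ∀ i, μ {x | ¬ GoodPt K (W i) x} = 0 := fun i =>
    ae_goodPt hK μ hμp H hH' (by rintro _ rfl; exact hf i) (Set.countable_singleton _)
  -- the large sets
  let V : ι → Set K := fun i => {z | c / 4 ≤ |f i z|}
  have hVm : ∀ i, MeasurableSet (V i) := fun i =>
    (isClosed_le continuous_const (by fun_prop)).measurableSet
  have hVpos : ∀ i, c / (4 * (|M| + 1)) ≤ μ.real (V i) := by
    intro i
    have hint : Integrable (fun x : K => |f i x|) μ :=
      (by fun_prop : Continuous fun x : K => |f i x|).integrable_of_hasCompactSupport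
        (HasCompactSupport.of_compactSpace _)
    have h1 : c / 2 ≤ ∫ x, |f i x| ∂μ := by
      have e1 := hbar (f i) (hf i)
      have e2 := hxy i
      have e3 : |f i x - f i y| ≤ |f i x| + |f i y| := abs_sub _ _
      linarith
    have h2 : ∫ x, |f i x| ∂μ ≤ ∫ x, ((V i).indicator (fun _ => |M|) x + c / 4) ∂μ := by
      refine integral_mono hint (((integrable_const |M|).indicator (hVm i)).add
        (integrable_const _)) fun x => ?_
      by_cases hx : x ∈ V i
      · simp only [indicator_of_mem hx]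
        have := (hM i x).trans (le_abs_self M)
        linarith
      · simp only [indicator_of_notMem hx, zero_add]
        by_contra hcon
        push Not at hcon
        exact hx hcon.le
    have h3 : ∫ x, ((V i).indicator (fun _ => |M|) x + c / 4) ∂μ =
        μ.real (V i) * |M| + c / 4 := by
      rw [integral_add ((integrable_const |M|).indicator (hVm i)) (integrable_const _),
        integral_indicator_const _ (hVm i), integral_const]
      simp
    have h4 : c / 4 ≤ μ.real (V i) * (|M| + 1) := by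
      have : 0 ≤ μ.real (V i) := measureReal_nonneg
      nlinarith
    rw [div_le_iff₀ (by positivity)]
    linarith
  set δ : ℝ := c / (4 * (|M| + 1)) with hδ
  have hδpos : 0 < δ := by positivity
  -- compact subsets of the large sets consisting of good points
  have hQ : ∀ i, ∃ Q : Set K, IsCompact Q ∧ ENNReal.ofReal (δ / 2) ≤ μ Q ∧
      ∀ x ∈ Q, x ∈ V i ∧ GoodPt K (W i) x := by
    intro i
    set B := toMeasurable μ {x | ¬ GoodPt K (W i) x} with hB
    have hB0 : μ B = 0 := by rw [hB, measure_toMeasurable, hgood i]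
    have hm : MeasurableSet (V i \ B) := (hVm i).diff (measurableSet_toMeasurable _ _)
    have hpos : ENNReal.ofReal (δ / 2) < μ (V i \ B) := by
      rw [measure_sdiff_null hB0]
      have h1 : ENNReal.ofReal δ ≤ μ (V i) := by
        rw [← ofReal_measureReal]
        exact ENNReal.ofReal_le_ofReal (hVpos i)
      refine lt_of_lt_of_le ?_ h1
      exact (ENNReal.ofReal_lt_ofReal_iff hδpos).2 (by linarith)
    obtain ⟨Q, hQs, hQc, hQ0⟩ := hm.exists_lt_isCompact_of_ne_top (measure_ne_top _ _) hpos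
    refine ⟨Q, hQc, hQ0.le, fun x hx => ⟨(hQs hx).1, ?_⟩⟩
    by_contra hcon
    exact (hQs hx).2 (subset_toMeasurable _ _ hcon)
  choose Q hQc hQ0 hQp using hQ
  obtain ⟨S, hS, hSF⟩ := hsel μ hμp hμr Q (fun i => (hQc i).isClosed.measurableSet)
    (ENNReal.ofReal (δ / 2)) (by
      rw [Ne, ENNReal.ofReal_eq_zero, not_le]
      positivity) hQ0
  have hinter : (⋂ t : T, Q (S t)).Nonempty := by
    by_contra hcon
    rw [not_nonempty_iff_eq_empty] at hcon
    obtain ⟨t, ht⟩ := isCompact_univ.elim_finite_subfamily_closed (fun t : T => Q (S t))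
      (fun t => (hQc (S t)).isClosed) (by rw [hcon, inter_empty])
    rw [univ_inter] at ht
    exact hSF t (by rw [ht, measure_empty])
  obtain ⟨z, hz⟩ := hinter
  rw [mem_iInter] at hz
  -- the face
  have hface := isExtreme_fibre (K := K) (fun t : T => W (S t)) (fun t => hWaff _) (x := z)
    (fun t => (hQp (S t) z (hz t)).2)
  set F : Set E := (↑) '' {y : K | ∀ t : T, ∀ g ∈ W (S t), g y = g z} with hF
  have hFc : IsCompact F := by
    refine IsCompact.image ?_ continuous_subtype_val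
    refine IsClosed.isCompact ?_
    have : {y : K | ∀ t : T, ∀ g ∈ W (S t), g y = g z} =
        ⋂ (t : T) (g : C(K, ℝ)) (_ : g ∈ W (S t)), {y | g y = g z} := by
      ext y
      simp only [mem_ofPred_eq, mem_iInter]
    rw [this]
    exact isClosed_iInter fun i => isClosed_iInter fun g => isClosed_iInter fun _ =>
      isClosed_eq g.continuous continuous_const
  obtain ⟨e, he⟩ := hFc.extremePoints_nonempty ⟨z, z, fun _ _ _ => rfl, rfl⟩
  have heK := hface.extremePoints_subset_extremePoints he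
  obtain ⟨e', he', rfl⟩ := he.1
  obtain ⟨t, ht⟩ := h0 e' heK (c / 8) (by positivity)
  have h1 := ht (S t) (hS t)
  have h2 : f (S t) e' = f (S t) z := he' t (f (S t)) (subset_clOffU H _ rfl)
  have h3 : c / 4 ≤ |f (S t) z| := (hQp (S t) z (hz t)).1
  rw [h2] at h1
  linarith

end Pool.Agent.Helper24.NW2
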