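import Pool.Agent.Helper50.NW.Bound
import Pool.Agent.Helper24.NW2.Lim


/-!
# Network weight of convex compacta: module Bnd
-/

set_option autoImplicit false
set_option linter.unusedSectionVars false

namespace Pool.Agent.Helper24.NW2

open Set MeasureTheory Cardinal Filter Topology ProbabilityTheory
open scoped ENNReal

universe u

open Pool.Agent.Helper50.NW in
/-- **Bound from a selection principle.** -/
theorem netWeight_le_of_selection {E : Type u} [AddCommGroup E] [Module ℝ E] [TopologicalSpace E]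
    [IsTopologicalAddGroup E] [ContinuousSMul ℝ E] [LocallyConvexSpace ℝ E] [T2Space E]
    {K : Set E} (hK : IsCompact K) {𝒩 : Set (Set E)} (h𝒩 : IsNetworkOn (extremePoints ℝ K) 𝒩)
    {ι : Type u} (D : ι → Set (𝒩 × ℚ × ℚ)) {B : Cardinal.{u}} (hB0 : ℵ₀ ≤ B) (hι : #ι ≤ B)
    (hB : ∀ i, 2 ^ #(D i) ≤ B)
    (hsel : ∀ (μ : @Measure K (borel K)), @IsProbabilityMeasure K (borel K) μ →
      @Measure.InnerRegular K (borel K) _ μ →
      ∀ Q : ι → Set K, (∀ i, @MeasurableSet K (borel K) (Q i)) →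
      ∀ δ : ℝ≥0∞, δ ≠ 0 → (∀ i, δ ≤ μ (Q i)) →
      ∃ S : 𝒩 × ℚ × ℚ → ι, (∀ t, t ∈ D (S t)) ∧
        ∀ F : Finset (𝒩 × ℚ × ℚ), μ (⋂ t ∈ F, Q (S t)) ≠ 0) :
    netWeight K ≤ B := by
  classical
  let T : Type u := 𝒩 × ℚ × ℚ
  let tt : T → Set E × ℚ × ℚ := fun t => (t.1.1, t.2)
  let ty : (E →L[ℝ] ℝ) → Set T := fun f => {t | tt t ∈ typ f}
  let P : ℕ → ι → Set T → (E →L[ℝ] ℝ) → Prop := fun m i A f =>
    (∀ x ∈ K, |f x| ≤ m) ∧ ty f ∩ D i = A
  let r : ℕ → ι → Set T → (E →L[ℝ] ℝ) := fun m i A =>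
    if h : ∃ f, P m i A f then h.choose else 0
  have hr : ∀ m i A f, P m i A f → P m i A (r m i A) := by
    intro m i A f hf
    have h : ∃ f, P m i A f := ⟨f, hf⟩
    simp only [r, dif_pos h]
    exact h.choose_spec
  -- the separating family
  let DD : Type u := Σ p : ULift.{u} ℕ × ι, 𝒫 (D p.2)
  let d : DD → E → ℝ := fun p => r p.1.1.down p.1.2 p.2.1
  have hDc : #DD ≤ B := by
    have h1 : #DD ≤ Cardinal.sum fun _ : ULift.{u} ℕ × ι => (B : Cardinal.{u}) := by
      rw [Cardinal.mk_sigma]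
      refine Cardinal.sum_le_sum _ _ fun p => ?_
      rw [Cardinal.mk_powerset]
      exact hB _
    refine h1.trans ?_
    rw [Cardinal.sum_const', ← Cardinal.mul_def]
    have h3 : #(ULift.{u} ℕ) = ℵ₀ := by simp
    rw [h3]
    calc ℵ₀ * #ι * B ≤ B * B * B := by gcongr
      _ = B := by rw [Cardinal.mul_eq_self hB0, Cardinal.mul_eq_self hB0]
  have hsep : ∀ x ∈ K, ∀ y ∈ K, (∀ i, d i x = d i y) → x = y := by
    intro x hx y hy hxy
    by_contra hne
    obtain ⟨f, hf⟩ := geometric_hahn_banach_point_point hne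
    obtain ⟨C, hC⟩ := hK.exists_bound_of_continuousOn (f := fun x => f x) f.continuous.continuousOn
    obtain ⟨m, hm⟩ := exists_nat_ge C
    have hfm : ∀ x ∈ K, |f x| ≤ m := fun z hz => by
      have := hC z hz
      rw [Real.norm_eq_abs] at this
      exact this.trans hm
    let g : ι → E →L[ℝ] ℝ := fun i => r m i (ty f ∩ D i)
    have hg : ∀ i, P m i (ty f ∩ D i) (g i) := fun i => hr m i _ f ⟨hfm, rfl⟩
    -- smallness at the extreme points
    have h0 : ∀ b : K, (b : E) ∈ extremePoints ℝ K → ∀ ε : ℝ, 0 < ε →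
        ∃ t, ∀ i, t ∈ D i → |resK K (g i - f) b| ≤ ε := by
      rintro ⟨b, hbK⟩ hb ε hε
      obtain ⟨p, hp1, hp2⟩ := exists_rat_btwn (show f b - ε / 2 < f b by linarith)
      obtain ⟨s, hs1, hs2⟩ := exists_rat_btwn (show f b < f b + ε / 2 by linarith)
      obtain ⟨N, hN, hbN, hNU⟩ := h𝒩.2 b hb {x | (p : ℝ) < f x ∧ f x < s}
        ((isOpen_lt continuous_const f.continuous).inter
          (isOpen_lt f.continuous continuous_const)) ⟨hp2, hs1⟩
      have ht : (⟨⟨N, hN⟩, p, s⟩ : T) ∈ ty f := fun x hx => ⟨(hNU hx).1.le, (hNU hx).2.le⟩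
      refine ⟨(⟨N, hN⟩, p, s), fun i hi => ?_⟩
      have h1 : (⟨⟨N, hN⟩, p, s⟩ : T) ∈ ty f ∩ D i := ⟨ht, hi⟩
      have h2 := ht b hbN
      rw [← (hg i).2] at h1
      have h3 := h1.1 b hbN
      have h2' : (p : ℝ) ≤ f b ∧ f b ≤ s := h2
      have h3' : (p : ℝ) ≤ g i b ∧ g i b ≤ s := h3
      rw [resK_apply]
      simp only [FunLike.coe_sub, Pi.sub_apply]
      rw [abs_le]
      constructor <;> linarith [h2'.1, h2'.2, h3'.1, h3'.2]
    refine selection_limit hK D (fun i => resK K (g i - f)) (fun i => resK_mem K _) (m + m) ?_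
      hsel h0 ⟨x, hx⟩ ⟨y, hy⟩ (c := f y - f x) (by linarith) ?_
    · rintro i ⟨z, hz⟩
      simp only [resK_apply, FunLike.coe_sub, Pi.sub_apply]
      exact (abs_sub _ _).trans (add_le_add ((hg i).1 z hz) (hfm z hz))
    · intro i
      have h3 : g i x = g i y := hxy ⟨⟨⟨m⟩, i⟩, ⟨ty f ∩ D i, inter_subset_right⟩⟩
      simp only [resK_apply, FunLike.coe_sub, Pi.sub_apply]
      rw [h3]
      have h4 : g i y - f x - (g i y - f y) = f y - f x := by ring
      rw [h4]
      exact le_abs_self _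
  refine (netWeight_le_of_separating hK d (fun i => ?_) hsep).trans (sup_le hB0 hDc)
  exact (r _ _ _).continuous.continuousOn

end Pool.Agent.Helper24.NW2
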