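import Pool.Agent.Helper24.NW2.Supp


/-!
# Network weight of convex compacta: module Sim
-/

set_option autoImplicit false
set_option linter.unusedSectionVars false

namespace Pool.Agent.Helper24.NW2

open Set MeasureTheory Cardinal Filter Topology ProbabilityTheory
open scoped ENNReal

universe u

/-! ### The positive cylinders determine a finite measure -/

lemma sim_single {A : Type u} (j : A) : MeasurableSet {x : A → Bool | x j = true} := by
  have h : Measurable (fun x : A → Bool => x j) := measurable_pi_apply j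
  exact h (measurableSet_singleton true)

lemma sim_ext {A : Type u} {μ ν : Measure (A → Bool)} [IsFiniteMeasure μ] [IsFiniteMeasure ν]
    (h : ∀ F : Finset A, μ {x | ∀ j ∈ F, x j = true} = ν {x | ∀ j ∈ F, x j = true}) :
    μ = ν := by
  classical
  refine ext_of_generate_finite {s | ∃ F : Finset A, s = {x | ∀ j ∈ F, x j = true}} ?_ ?_ ?_ ?_
  · apply le_antisymm
    · refine iSup_le fun i => ?_
      rw [← measurable_iff_comap_le]
      refine measurable_to_bool ?_
      refine MeasurableSpace.measurableSet_generateFrom ⟨{i}, ?_⟩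
      ext x
      simp
    · refine MeasurableSpace.generateFrom_le ?_
      rintro _ ⟨F, rfl⟩
      have : {x : A → Bool | ∀ j ∈ F, x j = true} = ⋂ j ∈ F, {x | x j = true} := by
        ext x
        simp
      rw [this]
      exact Finset.measurableSet_biInter F fun j _ => sim_single j
  · rintro _ ⟨F, rfl⟩ _ ⟨G, rfl⟩ _
    refine ⟨F ∪ G, ?_⟩
    ext x
    simp only [mem_inter_iff, mem_ofPred_eq, Finset.mem_union]
    constructor
    · rintro ⟨h1, h2⟩ j (hj | hj)
      · exact h1 j hj
      · exact h2 j hj
    · intro h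
      exact ⟨fun j hj => h j (Or.inl hj), fun j hj => h j (Or.inr hj)⟩
  · rintro _ ⟨F, rfl⟩
    exact h F
  · have := h ∅
    simpa using this

/-! ### The uniform distribution -/

lemma lam_lt (t : ℝ≥0∞) : lam {x : ℝ | ENNReal.ofReal x < t} = min t 1 := by
  have hmeas : MeasurableSet {x : ℝ | ENNReal.ofReal x < t} :=
    measurableSet_lt ENNReal.measurable_ofReal measurable_const
  rw [lam, Measure.restrict_apply hmeas]
  rcases lt_or_ge t 1 with ht | ht
  · have htop : t ≠ ∞ := ht.ne_top
    have e : {x : ℝ | ENNReal.ofReal x < t} ∩ Icc 0 1 = Ico 0 t.toReal := by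
      ext x
      simp only [mem_inter_iff, mem_ofPred_eq, mem_Icc, mem_Ico]
      constructor
      · rintro ⟨h1, h2, h3⟩
        exact ⟨h2, (ENNReal.ofReal_lt_iff_lt_toReal h2 htop).1 h1⟩
      · rintro ⟨h1, h2⟩
        refine ⟨(ENNReal.ofReal_lt_iff_lt_toReal h1 htop).2 h2, h1, ?_⟩
        have : t.toReal ≤ 1 := by
          have := ENNReal.toReal_mono ENNReal.one_ne_top ht.le
          simpa using this
        linarith
    rw [e, Real.volume_Ico, sub_zero, ENNReal.ofReal_toReal htop, min_eq_left ht.le]
  · rw [min_eq_right ht]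
    apply le_antisymm
    · refine (measure_mono inter_subset_right).trans ?_
      simp
    · have hsub : Ico (0 : ℝ) 1 ⊆ {x : ℝ | ENNReal.ofReal x < t} ∩ Icc 0 1 := by
        rintro x ⟨h1, h2⟩
        refine ⟨?_, h1, h2.le⟩
        refine lt_of_lt_of_le ?_ ht
        rw [← ENNReal.ofReal_one]
        exact (ENNReal.ofReal_lt_ofReal_iff one_pos).2 h2
      refine le_trans ?_ (measure_mono hsub)
      simp

/-! ### The recursive construction -/

section Rec

variable {I : Type u} [LinearOrder I] [WellFoundedLT I]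

/-- the simulated random variables -/
noncomputable def simPhi (p : (i : I) → (Iio i → Bool) → ℝ≥0∞) (v : I → ℝ) : I → Bool :=
  open Classical in
  WellFounded.fix (C := fun _ => Bool) (wellFounded_lt (α := I)) fun i rec =>
    decide (ENNReal.ofReal (v i) < p i (fun j : Iio i => rec j.1 j.2))

lemma simPhi_iff (p : (i : I) → (Iio i → Bool) → ℝ≥0∞) (v : I → ℝ) (i : I) :
    simPhi p v i = true ↔
      ENNReal.ofReal (v i) < p i (fun j : Iio i => simPhi p v j.1) := by
  classical
  unfold simPhi
  rw [WellFounded.fix_eq]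
  simp

lemma sim_coord_meas {J : Set I} {i : I} (hi : i ∈ J) :
    Measurable[sig J] (fun v : I → ℝ => v i) := by
  rw [measurable_iff_comap_le]
  exact le_iSup₂_of_le i hi le_rfl

lemma sim_meas {p : (i : I) → (Iio i → Bool) → ℝ≥0∞} (hp : ∀ i, Measurable (p i)) (i : I) :
    Measurable[sig (Iic i)] (fun v : I → ℝ => simPhi p v i) := by
  induction i using WellFoundedLT.induction with
  | ind i ih =>
    have h1 : Measurable[sig (Iic i)] (fun v : I → ℝ => fun j : Iio i => simPhi p v j.1) := by
      refine @measurable_pi_lambda _ _ _ (sig (Iic i)) _ _ fun j => ?_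
      exact (ih j.1 j.2).mono (sig_mono (Iic_subset_Iic.2 j.2.le)) le_rfl
    refine @measurable_to_bool _ (sig (Iic i)) _ ?_
    have h2 : (fun v : I → ℝ => simPhi p v i) ⁻¹' {true} =
        {v | ENNReal.ofReal (v i) < p i (fun j : Iio i => simPhi p v j.1)} := by
      ext v
      simp only [mem_preimage, mem_singleton_iff, mem_ofPred_eq]
      exact simPhi_iff p v i
    rw [h2]
    have h3 : Measurable[sig (Iic i)] (fun v : I → ℝ =>
        (ENNReal.ofReal (v i), p i (fun j : Iio i => simPhi p v j.1))) :=
      Measurable.prodMk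
        (ENNReal.measurable_ofReal.comp (sim_coord_meas (J := Iic i) (le_refl i)))
        ((hp i).comp h1)
    exact h3 (measurableSet_lt (measurable_fst (α := ℝ≥0∞) (β := ℝ≥0∞)) measurable_snd)

lemma sim_meas_lt {p : (i : I) → (Iio i → Bool) → ℝ≥0∞} (hp : ∀ i, Measurable (p i)) (i : I) :
    Measurable[sig (Iio i)] (fun v : I → ℝ => fun j : Iio i => simPhi p v j.1) := by
  refine @measurable_pi_lambda _ _ _ (sig (Iio i)) _ _ fun j => ?_
  refine (sim_meas hp j.1).mono (sig_mono fun k hk => ?_) le_rfl
  exact lt_of_le_of_lt hk j.2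

/-- the joint law of a coordinate and the past -/
lemma sim_joint {p : (i : I) → (Iio i → Bool) → ℝ≥0∞} (hp : ∀ i, Measurable (p i)) (i : I) :
    (Lam I).map (fun v : I → ℝ => (v i, fun j : Iio i => simPhi p v j.1)) =
      lam.prod ((Lam I).map (fun v : I → ℝ => fun j : Iio i => simPhi p v j.1)) := by
  have hm1 : Measurable (fun v : I → ℝ => v i) := measurable_pi_apply i
  have hm2 : Measurable (fun v : I → ℝ => fun j : Iio i => simPhi p v j.1) :=
    (sim_meas_lt hp i).mono (sig_le _) le_rfl
  have : IsProbabilityMeasure ((Lam I).map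
      (fun v : I → ℝ => fun j : Iio i => simPhi p v j.1)) :=
    Measure.isProbabilityMeasure_map hm2.aemeasurable
  symm
  refine Measure.prod_eq fun s t hs ht => ?_
  rw [Measure.map_apply (hm1.prodMk hm2) (hs.prod ht), Measure.map_apply hm2 ht]
  have h1 : (fun v : I → ℝ => (v i, fun j : Iio i => simPhi p v j.1)) ⁻¹' (s ×ˢ t) =
      ((fun v : I → ℝ => v i) ⁻¹' s) ∩
        ((fun v : I → ℝ => fun j : Iio i => simPhi p v j.1) ⁻¹' t) := rfl
  rw [h1, indep_sig (J := {i}) (J' := Iio i) (by simp)
    ((sim_coord_meas (J := ({i} : Set I)) rfl) hs) ((sim_meas_lt hp i) ht)]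
  congr 1
  have h2 : (Lam I).map (fun v : I → ℝ => v i) = lam := by
    rw [Lam]
    exact (measurePreserving_eval_infinitePi (fun _ => lam) i).map_eq
  rw [← h2, Measure.map_apply hm1 hs]

/-- the law of the next variable -/
lemma sim_next {p : (i : I) → (Iio i → Bool) → ℝ≥0∞} (hp : ∀ i, Measurable (p i)) (i : I)
    {C : Set (Iio i → Bool)} (hC : MeasurableSet C) :
    Lam I {v | simPhi p v i = true ∧ (fun j : Iio i => simPhi p v j.1) ∈ C} =
      ∫⁻ y in C, min (p i y) 1
        ∂((Lam I).map (fun v : I → ℝ => fun j : Iio i => simPhi p v j.1)) := by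
  have hm1 : Measurable (fun v : I → ℝ => v i) := measurable_pi_apply i
  have hm2 : Measurable (fun v : I → ℝ => fun j : Iio i => simPhi p v j.1) :=
    (sim_meas_lt hp i).mono (sig_le _) le_rfl
  have hprob : IsProbabilityMeasure ((Lam I).map
      (fun v : I → ℝ => fun j : Iio i => simPhi p v j.1)) :=
    Measure.isProbabilityMeasure_map hm2.aemeasurable
  set D : Set (ℝ × (Iio i → Bool)) := {z | ENNReal.ofReal z.1 < p i z.2 ∧ z.2 ∈ C} with hD
  have hDm : MeasurableSet D := by
    refine MeasurableSet.inter ?_ (measurable_snd hC)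
    exact measurableSet_lt (ENNReal.measurable_ofReal.comp measurable_fst)
      ((hp i).comp measurable_snd)
  have h1 : {v | simPhi p v i = true ∧ (fun j : Iio i => simPhi p v j.1) ∈ C} =
      (fun v : I → ℝ => (v i, fun j : Iio i => simPhi p v j.1)) ⁻¹' D := by
    ext v
    simp only [mem_ofPred_eq, mem_preimage, hD]
    rw [simPhi_iff]
  rw [h1, ← Measure.map_apply (hm1.prodMk hm2) hDm, sim_joint hp i,
    Measure.prod_apply_symm hDm, ← lintegral_indicator hC]
  refine lintegral_congr fun y => ?_
  by_cases hy : y ∈ C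
  · rw [indicator_of_mem hy, ← lam_lt]
    congr 1
    ext x
    simp [hD, hy]
  · rw [indicator_of_notMem hy]
    have : (fun x : ℝ => (x, y)) ⁻¹' D = ∅ := by
      ext x
      simp [hD, hy]
    rw [this, measure_empty]

end Rec

/-- Every family of events in a probability space can be simulated in a product of intervals. -/
theorem exists_simulation {Ω : Type u} [MeasurableSpace Ω] (P : Measure Ω)
    [IsProbabilityMeasure P] {I : Type u} (a : I → Set Ω) (ha : ∀ i, MeasurableSet (a i)) :
    ∃ b : I → Set (I → ℝ), (∀ i, MeasurableSet (b i)) ∧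
      ∀ F : Finset I, Lam I (⋂ i ∈ F, b i) = P (⋂ i ∈ F, a i) := by
  classical
  obtain ⟨_, _⟩ := exists_wellFoundedLT I
  -- the past of the original family
  set Y : (i : I) → Ω → (Iio i → Bool) := fun i ω j => decide (ω ∈ a j.1) with hY
  have hYm : ∀ i, Measurable (Y i) := by
    intro i
    refine measurable_pi_lambda _ fun j => ?_
    refine measurable_to_bool ?_
    have : (fun ω => Y i ω j) ⁻¹' {true} = a j.1 := by
      ext ω
      simp [hY]
    rw [this]
    exact ha j.1
  set κ : (i : I) → Measure (Iio i → Bool) := fun i => (P.restrict (a i)).map (Y i) with hκ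
  set p : (i : I) → (Iio i → Bool) → ℝ≥0∞ := fun i => (κ i).rnDeriv (P.map (Y i)) with hpdef
  have hp : ∀ i, Measurable (p i) := fun i => Measure.measurable_rnDeriv _ _
  have hprobY : ∀ i, IsProbabilityMeasure (P.map (Y i)) :=
    fun i => Measure.isProbabilityMeasure_map (hYm i).aemeasurable
  have hκle : ∀ i, κ i ≤ P.map (Y i) := fun i =>
    Measure.map_mono Measure.restrict_le_self (hYm i)
  have hκfin : ∀ i, IsFiniteMeasure (κ i) := fun i => inferInstance
  have hac : ∀ i, κ i ≪ P.map (Y i) := fun i => (hκle i).absolutelyContinuous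
  have hwd : ∀ i, (P.map (Y i)).withDensity (p i) = κ i :=
    fun i => Measure.withDensity_rnDeriv_eq _ _ (hac i)
  have hle1 : ∀ i, ∀ᵐ y ∂(P.map (Y i)), p i y ≤ 1 :=
    fun i => Measure.rnDeriv_le_one_of_le (hκle i)
  set b : I → Set (I → ℝ) := fun i => {v | simPhi p v i = true} with hb
  have hbm : ∀ i, MeasurableSet (b i) := by
    intro i
    have h1 : Measurable (fun v : I → ℝ => simPhi p v i) :=
      (sim_meas hp i).mono (sig_le _) le_rfl
    exact h1 (measurableSet_singleton true)
  have hpast : ∀ i, Measurable (fun v : I → ℝ => fun j : Iio i => simPhi p v j.1) :=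
    fun i => (sim_meas_lt hp i).mono (sig_le _) le_rfl
  -- the step
  have step : ∀ i, (∀ F : Finset I, (∀ j ∈ F, j < i) → Lam I (⋂ j ∈ F, b j) = P (⋂ j ∈ F, a j)) →
      ∀ F : Finset I, (∀ j ∈ F, j < i) →
        Lam I (⋂ j ∈ insert i F, b j) = P (⋂ j ∈ insert i F, a j) := by
    intro i hi F hF
    have hprob : IsProbabilityMeasure ((Lam I).map
        (fun v : I → ℝ => fun j : Iio i => simPhi p v j.1)) :=
      Measure.isProbabilityMeasure_map (hpast i).aemeasurable
    have hcyl : ∀ G : Finset (Iio i), MeasurableSet {x : Iio i → Bool | ∀ j ∈ G, x j = true} := by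
      intro G
      have : {x : Iio i → Bool | ∀ j ∈ G, x j = true} = ⋂ j ∈ G, {x | x j = true} := by
        ext x
        simp
      rw [this]
      exact Finset.measurableSet_biInter G fun j _ => sim_single j
    have hlaw : (Lam I).map (fun v : I → ℝ => fun j : Iio i => simPhi p v j.1) =
        P.map (Y i) := by
      have := hprobY i
      refine sim_ext fun G => ?_
      rw [Measure.map_apply (hpast i) (hcyl G), Measure.map_apply (hYm i) (hcyl G)]
      have h1 := hi (G.map (Function.Embedding.subtype _)) (by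
        intro j hj
        simp only [Finset.mem_map, Function.Embedding.subtype_apply] at hj
        obtain ⟨k, _, rfl⟩ := hj
        exact k.2)
      have e1 : (fun v : I → ℝ => fun j : Iio i => simPhi p v j.1) ⁻¹'
          {x : Iio i → Bool | ∀ j ∈ G, x j = true} =
          ⋂ j ∈ G.map (Function.Embedding.subtype _), b j := by
        ext v
        simp [hb]
      have e2 : (Y i) ⁻¹' {x : Iio i → Bool | ∀ j ∈ G, x j = true} =
          ⋂ j ∈ G.map (Function.Embedding.subtype _), a j := by
        ext ω
        simp [hY]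
      rw [e1, e2]
      exact h1
    -- the finite set as a set of the past
    set G : Finset (Iio i) := F.subtype (fun j => j ∈ Iio i) with hG
    have hGmem : ∀ j : Iio i, j ∈ G ↔ j.1 ∈ F := by
      intro j
      rw [hG, Finset.mem_subtype]
    set C : Set (Iio i → Bool) := {x | ∀ j ∈ G, x j = true} with hC
    have e1 : (⋂ j ∈ insert i F, b j) =
        {v | simPhi p v i = true ∧ (fun j : Iio i => simPhi p v j.1) ∈ C} := by
      ext v
      simp only [Finset.mem_insert, iInter_iInter_eq_or_left, mem_inter_iff, mem_iInter, hb,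
        mem_ofPred_eq, hC]
      constructor
      · rintro ⟨h1, h2⟩
        exact ⟨h1, fun j hj => h2 j.1 ((hGmem j).1 hj)⟩
      · rintro ⟨h1, h2⟩
        exact ⟨h1, fun j hj => h2 ⟨j, hF j hj⟩ ((hGmem _).2 hj)⟩
    have e2 : (⋂ j ∈ insert i F, a j) = (Y i) ⁻¹' C ∩ a i := by
      ext ω
      simp only [Finset.mem_insert, iInter_iInter_eq_or_left, mem_inter_iff, mem_iInter,
        mem_preimage, mem_ofPred_eq, hC, hY, decide_eq_true_eq]
      constructor
      · rintro ⟨h1, h2⟩
        exact ⟨fun j hj => h2 j.1 ((hGmem j).1 hj), h1⟩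
      · rintro ⟨h1, h2⟩
        exact ⟨h2, fun j hj => h1 ⟨j, hF j hj⟩ ((hGmem _).2 hj)⟩
    rw [e1, e2, sim_next hp i (hcyl G), hlaw]
    have h3 : ∫⁻ y in C, min (p i y) 1 ∂(P.map (Y i)) = ∫⁻ y in C, p i y ∂(P.map (Y i)) := by
      refine lintegral_congr_ae ?_
      refine ae_restrict_of_ae ?_
      filter_upwards [hle1 i] with y hy
      exact min_eq_left hy
    rw [h3, ← withDensity_apply _ (hcyl G), hwd i, hκ]
    simp only
    rw [Measure.map_apply (hYm i) (hcyl G), Measure.restrict_apply ((hYm i) (hcyl G))]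
  -- the induction
  have hmain : ∀ i, ∀ F : Finset I, (∀ j ∈ F, j ≤ i) →
      Lam I (⋂ j ∈ F, b j) = P (⋂ j ∈ F, a j) := by
    intro i
    induction i using WellFoundedLT.induction with
    | ind i ih =>
      have hlt : ∀ F : Finset I, (∀ j ∈ F, j < i) →
          Lam I (⋂ j ∈ F, b j) = P (⋂ j ∈ F, a j) := by
        intro F hF
        rcases F.eq_empty_or_nonempty with rfl | hne
        · simp
        · exact ih (F.max' hne) (hF _ (F.max'_mem hne)) F fun j hj => F.le_max' j hj
      intro F hF
      by_cases hiF : i ∈ F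
      · have h1 := step i hlt (F.erase i) (fun j hj => by
          rw [Finset.mem_erase] at hj
          exact lt_of_le_of_ne (hF j hj.2) hj.1)
        rwa [Finset.insert_erase hiF] at h1
      · exact hlt F fun j hj => lt_of_le_of_ne (hF j hj) (fun h => hiF (h ▸ hj))
  refine ⟨b, hbm, fun F => ?_⟩
  rcases F.eq_empty_or_nonempty with rfl | hne
  · simp
  · exact hmain (F.max' hne) F fun j hj => F.le_max' j hj

end Pool.Agent.Helper24.NW2
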