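import Pool.Agent.Helper24.NW2.Product
import Pool.Agent.Helper24.NW2.Sim


/-!
# Network weight of convex compacta: module Coloring
-/

set_option autoImplicit false
set_option linter.unusedSectionVars false

namespace Pool.Agent.Helper24.NW2

open Set MeasureTheory Cardinal Filter Topology ProbabilityTheory
open scoped ENNReal

universe u

/-- A family of at most `2^m` events of positive probability is the union of `m` centered families if
`m^ω = m`. -/
theorem exists_coloring {Ω : Type u} [MeasurableSpace Ω] (P : Measure Ω)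
    [IsProbabilityMeasure P] {J : Type u} {m : Cardinal.{u}} (hm : m ^ ℵ₀ = m) (hm0 : ℵ₀ ≤ m)
    (hJ : #J ≤ 2 ^ m)
    (a : J → Set Ω) (ha : ∀ j, MeasurableSet (a j)) (hpos : ∀ j, P (a j) ≠ 0) :
    ∃ (C : Type u) (col : J → C), #C ≤ m ∧
      ∀ F : Finset J, (∀ j ∈ F, ∀ k ∈ F, col j = col k) → P (⋂ j ∈ F, a j) ≠ 0 := by
  obtain ⟨b, hb, hbF⟩ := exists_simulation P a ha
  have hpos' : ∀ j, Lam J (b j) ≠ 0 := by
    intro j
    have h := hbF {j}
    simp only [Finset.mem_singleton, iInter_iInter_eq_left] at h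
    rw [h]
    exact hpos j
  obtain ⟨C, col, hC, hcol⟩ := product_coloring hm hm0 hJ b hb hpos'
  refine ⟨C, col, hC, fun F hF => ?_⟩
  rw [← hbF F]
  exact hcol F hF

end Pool.Agent.Helper24.NW2
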