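import Pool.Agent.Helper24.NW2.Supp


/-!
# Network weight of convex compacta: module Density
-/

set_option autoImplicit false
set_option linter.unusedSectionVars false

namespace Pool.Agent.Helper24.NW2

open Set MeasureTheory Cardinal Filter Topology ProbabilityTheory
open scoped ENNReal

universe u

/-- the sets that depend only on the membership in finitely many half spaces -/
def Density_alg {I : Type u} (J : Set I) : Set (Set (I → ℝ)) :=
  {A | ∃ T : Finset (I × ℚ), (∀ t ∈ T, t.1 ∈ J) ∧
    ∀ v w : I → ℝ, (∀ t ∈ T, (v t.1 < (t.2 : ℝ) ↔ w t.1 < (t.2 : ℝ))) → (v ∈ A ↔ w ∈ A)}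

open Classical in
/-- the constraints of an atom -/
noncomputable def Density_at {I : Type u} (T U : Finset (I × ℚ)) : List (I × ℚ × Bool) :=
  T.toList.map fun t => (t.1, t.2, decide (t ∈ U))

theorem Density_mem_at {I : Type u} {T U : Finset (I × ℚ)} {v : I → ℝ} :
    v ∈ box (Density_at T U) ↔ ∀ t ∈ T, (v t.1 < (t.2 : ℝ) ↔ t ∈ U) := by
  simp only [box, Density_at, Set.mem_ofPred_eq, List.mem_map, Finset.mem_toList,
    forall_exists_index, and_imp, forall_apply_eq_imp_iff₂, decide_eq_true_eq]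

theorem Density_at_mem {I : Type u} {J : Set I} {T U : Finset (I × ℚ)} (hT : ∀ t ∈ T, t.1 ∈ J) :
    ∀ c ∈ Density_at T U, c.1 ∈ J := by
  intro c hc
  simp only [Density_at, List.mem_map, Finset.mem_toList] at hc
  obtain ⟨t, ht, rfl⟩ := hc
  exact hT t ht

theorem Density_isSetAlgebra {I : Type u} (J : Set I) : IsSetAlgebra (Density_alg J) := by
  classical
  constructor
  · exact ⟨∅, by simp, by simp⟩
  · rintro A ⟨T, h1, h2⟩
    exact ⟨T, h1, fun v w h => not_congr (h2 v w h)⟩
  · rintro A B ⟨T, h1, h2⟩ ⟨T', h1', h2'⟩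
    refine ⟨T ∪ T', ?_, ?_⟩
    · intro t ht
      rcases Finset.mem_union.1 ht with h | h
      · exact h1 t h
      · exact h1' t h
    · intro v w h
      exact or_congr (h2 v w fun t ht => h t (Finset.mem_union_left _ ht))
        (h2' v w fun t ht => h t (Finset.mem_union_right _ ht))

open Classical in
theorem Density_eq_iUnion {I : Type u} {T : Finset (I × ℚ)} {A : Set (I → ℝ)}
    (h : ∀ v w : I → ℝ, (∀ t ∈ T, (v t.1 < (t.2 : ℝ) ↔ w t.1 < (t.2 : ℝ))) → (v ∈ A ↔ w ∈ A)) :
    A = ⋃ U ∈ T.powerset.filter (fun U => box (Density_at T U) ⊆ A), box (Density_at T U) := by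
  ext v
  simp only [mem_iUnion, Finset.mem_filter, Finset.mem_powerset, exists_prop]
  constructor
  · intro hv
    refine ⟨T.filter fun t => v t.1 < (t.2 : ℝ), ⟨Finset.filter_subset _ _, ?_⟩, ?_⟩
    · intro w hw
      rw [Density_mem_at] at hw
      refine (h v w fun t ht => ?_).1 hv
      rw [hw t ht, Finset.mem_filter]
      exact ⟨fun h => ⟨ht, h⟩, fun h => h.2⟩
    · rw [Density_mem_at]
      intro t ht
      rw [Finset.mem_filter]
      exact ⟨fun h => ⟨ht, h⟩, fun h => h.2⟩
  · rintro ⟨U, ⟨-, h1⟩, h2⟩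
    exact h1 h2

theorem Density_gen {I : Type u} (J : Set I) :
    sig J = MeasurableSpace.generateFrom (Density_alg J) := by
  classical
  apply le_antisymm
  · refine iSup₂_le fun i hi => ?_
    have e : (inferInstance : MeasurableSpace ℝ) =
        MeasurableSpace.generateFrom (⋃ a : ℚ, {Iio (a : ℝ)}) := by
      rw [← Real.borel_eq_generateFrom_Iio_rat]
      exact BorelSpace.measurable_eq
    rw [e, MeasurableSpace.comap_generateFrom]
    refine MeasurableSpace.generateFrom_mono ?_
    rintro s ⟨t, ht, rfl⟩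
    obtain ⟨q, hq⟩ := mem_iUnion.1 ht
    rw [mem_singleton_iff] at hq
    refine ⟨{(i, q)}, by simpa using hi, fun v w h => ?_⟩
    rw [hq]
    exact h (i, q) (by simp)
  · refine MeasurableSpace.generateFrom_le ?_
    rintro A ⟨T, h1, h2⟩
    rw [Density_eq_iUnion h2]
    refine Finset.measurableSet_biUnion _ fun U _ => ?_
    exact measurableSet_box (Density_at_mem h1)

theorem Density_disj {I : Type u} {T U U' : Finset (I × ℚ)} (hU : U ⊆ T) (hU' : U' ⊆ T)
    (hne : U ≠ U') : Disjoint (box (Density_at T U)) (box (Density_at T U')) := by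
  rw [Set.disjoint_left]
  intro v h1 h2
  rw [Density_mem_at] at h1 h2
  apply hne
  ext t
  constructor
  · intro ht
    exact (h2 t (hU ht)).1 ((h1 t (hU ht)).2 ht)
  · intro ht
    exact (h1 t (hU' ht)).1 ((h2 t (hU' ht)).2 ht)

theorem Density_mul_le {I : Type u} {J : Set I} {b : Set (I → ℝ)} (hb : MeasurableSet[sig J] b)
    {ε : ℝ≥0∞} (h : ∀ l : List (I × ℚ × Bool), (∀ c ∈ l, c.1 ∈ J) → Lam I (box l) ≠ 0 →
      ε * Lam I (box l) ≤ Lam I (box l \ b)) {A : Set (I → ℝ)} (hA : A ∈ Density_alg J) :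
    ε * Lam I A ≤ Lam I (A \ b) := by
  classical
  obtain ⟨T, h1, h2⟩ := hA
  have hbm : MeasurableSet b := sig_le J b hb
  have hm : ∀ U : Finset (I × ℚ), MeasurableSet (box (Density_at T U)) := fun U =>
    sig_le J _ (measurableSet_box (Density_at_mem h1))
  set F := T.powerset.filter (fun U => box (Density_at T U) ⊆ A) with hF
  have hA : A = ⋃ U ∈ F, box (Density_at T U) := Density_eq_iUnion h2
  have hAb : A \ b = ⋃ U ∈ F, (box (Density_at T U) \ b) := by
    ext v
    simp only [mem_iUnion, Set.mem_sdiff, exists_prop]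
    constructor
    · rintro ⟨hv, hvb⟩
      rw [hA] at hv
      simp only [mem_iUnion, exists_prop] at hv
      obtain ⟨U, hU, hv⟩ := hv
      exact ⟨U, hU, hv, hvb⟩
    · rintro ⟨U, hU, hv, hvb⟩
      refine ⟨?_, hvb⟩
      rw [hA]
      simp only [mem_iUnion, exists_prop]
      exact ⟨U, hU, hv⟩
  have hd : ∀ U ∈ F, ∀ U' ∈ F, U ≠ U' →
      Disjoint (box (Density_at T U)) (box (Density_at T U')) := by
    intro U hU U' hU' hne
    exact Density_disj (Finset.mem_powerset.1 (Finset.mem_filter.1 hU).1)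
      (Finset.mem_powerset.1 (Finset.mem_filter.1 hU').1) hne
  have e1 : Lam I A = ∑ U ∈ F, Lam I (box (Density_at T U)) := by
    conv_lhs => rw [hA]
    exact measure_biUnion_finset (fun U hU U' hU' hne => hd U hU U' hU' hne) fun U _ => hm U
  have e2 : Lam I (A \ b) = ∑ U ∈ F, Lam I (box (Density_at T U) \ b) := by
    rw [hAb]
    exact measure_biUnion_finset
      (fun U hU U' hU' hne => (hd U hU U' hU' hne).mono sdiff_le sdiff_le)
      fun U _ => (hm U).diff hbm
  rw [e1, e2, Finset.mul_sum]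
  refine Finset.sum_le_sum fun U _ => ?_
  by_cases h0 : Lam I (box (Density_at T U)) = 0
  · rw [h0, mul_zero]
    exact zero_le
  · exact h _ (Density_at_mem h1) h0

/-- a Lebesgue density type statement -/
theorem exists_box {I : Type u} {J : Set I} {b : Set (I → ℝ)} (hb : MeasurableSet[sig J] b)
    (hpos : Lam I b ≠ 0) {ε : ℝ≥0∞} (hε : ε ≠ 0) :
    ∃ l : List (I × ℚ × Bool), (∀ c ∈ l, c.1 ∈ J) ∧ Lam I (box l) ≠ 0 ∧
      Lam I (box l \ b) < ε * Lam I (box l) := by
  by_contra hcon
  push Not at hcon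
  have hmul := fun A (hA : A ∈ Density_alg J) => Density_mul_le hb (ε := min ε 1)
    (fun l hl h0 => le_trans (mul_le_mul' (min_le_left _ _) le_rfl) (hcon l hl h0)) hA
  set e : ℝ := (min ε 1).toReal with he
  have he1 : min ε 1 ≠ ⊤ := ne_top_of_le_ne_top ENNReal.one_ne_top (min_le_right _ _)
  have he0 : 0 < e := by
    refine ENNReal.toReal_pos ?_ he1
    exact (lt_min (pos_iff_ne_zero.2 hε) one_pos).ne'
  have hele : e ≤ 1 := by
    rw [he, ← ENNReal.toReal_one]
    exact ENNReal.toReal_mono ENNReal.one_ne_top (min_le_right _ _)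
  have hβ : 0 < (Lam I).real b := ENNReal.toReal_pos hpos (measure_ne_top _ _)
  set β : ℝ := (Lam I).real b with hβd
  have hη : 0 < e * β / 4 := by positivity
  have hbm : MeasurableSet b := sig_le J b hb
  -- approximation
  have happ : ∃ A ∈ Density_alg J, (Lam I).real (symmDiff b A) < e * β / 4 := by
    have hd := @Measure.MeasureDense.of_generateFrom_isSetAlgebra_finite (I → ℝ) (sig J)
      ((Lam I).trim (sig_le J)) (Density_alg J) (isFiniteMeasure_trim (sig_le J))
      (Density_isSetAlgebra J) (Density_gen J)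
    have hfin := @measure_ne_top (I → ℝ) (sig J) ((Lam I).trim (sig_le J))
      (isFiniteMeasure_trim (sig_le J)) b
    obtain ⟨A, hA, hlt⟩ := @Measure.MeasureDense.approx (I → ℝ) (sig J) _ _ hd b hb hfin
      (e * β / 4) hη
    refine ⟨A, hA, ?_⟩
    have hAm : MeasurableSet[sig J] A := by
      rw [Density_gen J]
      exact MeasurableSpace.measurableSet_generateFrom hA
    have hsm : MeasurableSet[sig J] (symmDiff b A) := by
      exact @MeasurableSet.symmDiff _ (sig J) _ _ hb hAm
    rw [trim_measurableSet_eq (sig_le J) hsm] at hlt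
    exact (ENNReal.lt_ofReal_iff_toReal_lt (measure_ne_top _ _)).1 hlt
  obtain ⟨A, hA, hlt⟩ := happ
  have hAm : MeasurableSet A := sig_le J A (by
    rw [Density_gen J]
    exact MeasurableSpace.measurableSet_generateFrom hA)
  have h1 : e * (Lam I).real A ≤ (Lam I).real (A \ b) := by
    have h2 := ENNReal.toReal_mono (measure_ne_top _ _) (hmul A hA)
    rw [ENNReal.toReal_mul] at h2
    exact h2
  have h3 : (Lam I).real (A \ b) ≤ (Lam I).real (symmDiff b A) := by
    refine measureReal_mono ?_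
    intro v hv
    exact Or.inr hv
  have h4 : (Lam I).real b ≤ (Lam I).real A + (Lam I).real (symmDiff b A) := by
    refine le_trans (measureReal_mono (s₂ := A ∪ symmDiff b A) ?_) (measureReal_union_le _ _)
    intro v hv
    by_cases h : v ∈ A
    · exact Or.inl h
    · exact Or.inr (Or.inl ⟨hv, h⟩)
  nlinarith

end Pool.Agent.Helper24.NW2
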