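import Pool.Agent.Helper24.NW2.Supp


/-!
# Network weight of convex compacta: module InterPos
-/

set_option autoImplicit false
set_option linter.unusedSectionVars false

namespace Pool.Agent.Helper24.NW2

open Set MeasureTheory Cardinal Filter Topology ProbabilityTheory
open scoped ENNReal

universe u

theorem InterPos_meas_list {I : Type u} (r : I) (L : List (I × ℚ × Bool)) :
    MeasurableSet {x : ℝ | ∀ c ∈ L, c.1 = r → (x < (c.2.1 : ℝ) ↔ c.2.2 = true)} := by
  induction L with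
  | nil => simp
  | cons c L ih =>
    have e : {x : ℝ | ∀ c' ∈ c :: L, c'.1 = r → (x < (c'.2.1 : ℝ) ↔ c'.2.2 = true)} =
        {x : ℝ | c.1 = r → (x < (c.2.1 : ℝ) ↔ c.2.2 = true)} ∩
        {x : ℝ | ∀ c ∈ L, c.1 = r → (x < (c.2.1 : ℝ) ↔ c.2.2 = true)} := by
      ext x
      simp only [mem_setOf_eq, List.forall_mem_cons, mem_inter_iff]
    rw [e]
    refine MeasurableSet.inter ?_ ih
    by_cases h : c.1 = r
    · cases hb : c.2.2
      · simp only [h, hb, true_implies, Bool.false_eq_true, iff_false, not_lt]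
        exact measurableSet_Ici
      · simp only [h, hb, true_implies, iff_true]
        exact measurableSet_Iio
    · simp [h]

/-- the intersection of compatible boxes and sets of high density in them is not null -/
theorem inter_pos {I : Type u} {κ : Type} [Fintype κ] [Nonempty κ] (b : κ → Set (I → ℝ))
    (J : κ → Set I) (hb : ∀ k, MeasurableSet[sig (J k)] (b k)) (l : κ → List (I × ℚ × Bool))
    (hl : ∀ k, ∀ c ∈ l k, c.1 ∈ J k) (hcode : ∀ k k', (l k).map Prod.snd = (l k').map Prod.snd)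
    (hsep : ∀ (k k' : κ) (t : ℕ) (c c' : I × ℚ × Bool), (l k)[t]? = some c → (l k')[t]? = some c' →
      c'.1 ∈ J k → c'.1 = c.1)
    (hpos : ∀ k, Lam I (box (l k)) ≠ 0)
    (hdens : ∀ k, Lam I (box (l k) \ b k) < (Fintype.card κ : ℝ≥0∞)⁻¹ * Lam I (box (l k))) :
    Lam I (⋂ k, b k) ≠ 0 := by
  classical
  -- a constraint on a coordinate of `J k` occurs in `l k`
  have key : ∀ (k k' : κ) (c' : I × ℚ × Bool), c' ∈ l k' → c'.1 ∈ J k → c' ∈ l k := by
    intro k k' c' hc' hJ
    obtain ⟨t, ht⟩ := List.mem_iff_getElem?.1 hc'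
    have h1 : ((l k).map Prod.snd)[t]? = some c'.2 := by
      rw [hcode k k', List.getElem?_map, ht]
      rfl
    rw [List.getElem?_map, Option.map_eq_some_iff] at h1
    obtain ⟨c, hc, hc2⟩ := h1
    have h2 := hsep k k' t c c' hc ht hJ
    have : c' = c := Prod.ext h2 hc2.symm
    rw [this]
    exact List.mem_iff_getElem?.2 ⟨t, hc⟩
  -- the common box
  set Q : Set (I → ℝ) := ⋂ k, box (l k) with hQ
  let R : Finset I := Finset.univ.biUnion fun k => ((l k).map Prod.fst).toFinset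
  have hR : ∀ r, r ∈ R ↔ ∃ k, ∃ c ∈ l k, c.1 = r := by
    intro r
    simp only [R, Finset.mem_biUnion, Finset.mem_univ, true_and, List.mem_toFinset, List.mem_map]
  let Wr : I → Set ℝ := fun r =>
    {x | ∀ k, ∀ c ∈ l k, c.1 = r → (x < (c.2.1 : ℝ) ↔ c.2.2 = true)}
  have hWm : ∀ r, MeasurableSet (Wr r) := by
    intro r
    have e : Wr r = ⋂ k, {x : ℝ | ∀ c ∈ l k, c.1 = r → (x < (c.2.1 : ℝ) ↔ c.2.2 = true)} := by
      ext x
      simp [Wr]
    rw [e]
    exact MeasurableSet.iInter fun k => InterPos_meas_list r (l k)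
  have hQpi : Q = Set.pi (↑R) Wr := by
    ext v
    simp only [hQ, mem_iInter, Set.mem_pi, Finset.mem_coe, box, mem_setOf_eq, Wr]
    constructor
    · rintro h r - k c hc rfl
      exact h k c hc
    · intro h k c hc
      exact h c.1 ((hR _).2 ⟨k, c, hc, rfl⟩) k c hc rfl
  have hLamQ : Lam I Q ≠ 0 := by
    rw [hQpi, Lam, Measure.infinitePi_pi _ (fun i _ => hWm i), Finset.prod_ne_zero_iff]
    intro r hr
    obtain ⟨k, c, hc, rfl⟩ := (hR r).1 hr
    have h1 : box (l k) ⊆ Set.pi (↑({c.1} : Finset I)) Wr := by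
      intro v hv
      simp only [Finset.coe_singleton, Set.mem_pi, mem_singleton_iff, forall_eq]
      intro k' c' hc' hcc
      have h2 := hv c' (key k k' c' hc' (by rw [hcc]; exact hl k c hc))
      rw [hcc] at h2
      exact h2
    have h2 : Lam I (Set.pi (↑({c.1} : Finset I)) Wr) = lam (Wr c.1) := by
      rw [Lam, Measure.infinitePi_pi _ (fun i _ => hWm i), Finset.prod_singleton]
    intro h0
    have h3 := measure_mono (μ := Lam I) h1
    rw [h2, h0] at h3
    exact hpos k (le_antisymm h3 bot_le)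
  -- the outer boxes
  let lo : κ → List (I × ℚ × Bool) := fun k =>
    (Finset.univ.toList.flatMap l).filter fun c => decide (c.1 ∉ J k)
  have hlo : ∀ k c, c ∈ lo k ↔ (∃ k', c ∈ l k') ∧ c.1 ∉ J k := by
    intro k c
    simp [lo]
  have hlom : ∀ k, ∀ c ∈ lo k, c.1 ∈ (J k)ᶜ := fun k c hc => ((hlo k c).1 hc).2
  have hQk : ∀ k, Q = box (l k) ∩ box (lo k) := by
    intro k
    ext v
    simp only [hQ, mem_iInter, mem_inter_iff]
    constructor
    · intro h
      refine ⟨h k, fun c hc => ?_⟩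
      obtain ⟨⟨k', hk'⟩, -⟩ := (hlo k c).1 hc
      exact h k' c hk'
    · rintro ⟨h1, h2⟩ k' c hc
      by_cases hJ : c.1 ∈ J k
      · exact h1 c (key k k' c hc hJ)
      · exact h2 c ((hlo k c).2 ⟨⟨k', hc⟩, hJ⟩)
  have hn0 : (Fintype.card κ : ℝ≥0∞) ≠ 0 := by simp
  have hnt : (Fintype.card κ : ℝ≥0∞) ≠ ⊤ := ENNReal.natCast_ne_top _
  have hsmall : ∀ k, Lam I (Q \ b k) < (Fintype.card κ : ℝ≥0∞)⁻¹ * Lam I Q := by
    intro k
    have e1 : Q \ b k = (box (l k) \ b k) ∩ box (lo k) := by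
      rw [hQk k]
      ext v
      simp only [mem_diff, mem_inter_iff]
      tauto
    have m1 : MeasurableSet[sig (J k)] (box (l k)) := measurableSet_box (hl k)
    have m2 : MeasurableSet[sig (J k)ᶜ] (box (lo k)) := measurableSet_box (hlom k)
    have i1 := indep_sig disjoint_compl_right (MeasurableSet.diff m1 (hb k)) m2
    have i2 := indep_sig disjoint_compl_right m1 m2
    have hlo0 : Lam I (box (lo k)) ≠ 0 := by
      intro h0
      apply hLamQ
      rw [hQk k, i2, h0, mul_zero]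
    rw [e1, i1, hQk k, i2, ← mul_assoc]
    exact (ENNReal.mul_lt_mul_iff_left hlo0 (measure_ne_top _ _)).2 (hdens k)
  intro h0
  have hcov : Q ⊆ (⋂ k, b k) ∪ ⋃ k, (Q \ b k) := by
    intro v hv
    by_cases h : v ∈ ⋂ k, b k
    · exact Or.inl h
    · right
      rw [mem_iInter, not_forall] at h
      obtain ⟨k, hk⟩ := h
      exact mem_iUnion.2 ⟨k, hv, hk⟩
  have hlt : Lam I Q < Lam I Q := by
    calc Lam I Q ≤ Lam I ((⋂ k, b k) ∪ ⋃ k, (Q \ b k)) := measure_mono hcov
      _ ≤ Lam I (⋂ k, b k) + Lam I (⋃ k, (Q \ b k)) := measure_union_le _ _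
      _ = Lam I (⋃ k, (Q \ b k)) := by rw [h0, zero_add]
      _ ≤ ∑ k, Lam I (Q \ b k) := measure_iUnion_fintype_le _ _
      _ < ∑ _k : κ, (Fintype.card κ : ℝ≥0∞)⁻¹ * Lam I Q :=
          ENNReal.sum_lt_sum_of_nonempty Finset.univ_nonempty fun k _ => hsmall k
      _ = Lam I Q := by
          rw [Finset.sum_const, Finset.card_univ, nsmul_eq_mul, ← mul_assoc,
            ENNReal.mul_inv_cancel hn0 hnt, one_mul]
  exact lt_irrefl _ hlt

end Pool.Agent.Helper24.NW2
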