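import Pool.Agent.Helper24.NW2.Coloring


/-!
# Network weight of convex compacta: module Sel
-/

set_option autoImplicit false
set_option linter.unusedSectionVars false

namespace Pool.Agent.Helper24.NW2

open Set MeasureTheory Cardinal Filter Topology ProbabilityTheory
open scoped ENNReal

universe u

/-- selection for sets of size at most `m` -/
theorem sel_pow {Ω : Type u} [MeasurableSpace Ω] (P : Measure Ω) [IsProbabilityMeasure P]
    {T : Type u} {m : Cardinal.{u}} (hm : m ^ ℵ₀ = m) (hm0 : ℵ₀ ≤ m)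
    (hT : #T ≤ 2 ^ m)
    (Q : {S : Set T // #S ≤ m} → Set Ω) (hQ : ∀ S, MeasurableSet (Q S)) (hpos : ∀ S, P (Q S) ≠ 0) :
    ∃ S : T → {S : Set T // #S ≤ m}, (∀ t, t ∈ (S t).1) ∧
      ∀ F : Finset T, P (⋂ t ∈ F, Q (S t)) ≠ 0 := by
  classical
  have hcard : #{S : Set T // #S ≤ m} ≤ 2 ^ m := by
    rcases lt_or_ge (#T) ℵ₀ with hfin | hinf
    · have : Finite T := Cardinal.lt_aleph0_iff_finite.mp hfin
      have h1 : #{S : Set T // #S ≤ m} ≤ #(Set T) := Cardinal.mk_subtype_le _
      have h2 : #(Set T) < ℵ₀ := Cardinal.lt_aleph0_iff_finite.mpr inferInstance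
      exact h1.trans (h2.le.trans (hm0.trans (Cardinal.cantor m).le))
    · have h1 : #{S : Set T // #S ≤ m} ≤ (max (#T) ℵ₀) ^ m := Cardinal.mk_bounded_set_le T m
      rw [max_eq_left hinf] at h1
      refine h1.trans ((Cardinal.power_le_power_right hT).trans ?_)
      rw [← Cardinal.power_mul, Cardinal.mul_eq_self hm0]
  obtain ⟨C, col, hC, hcol⟩ := exists_coloring P hm hm0 hcard Q hQ hpos
  have hex : ∃ γ : C, ∀ t : T, ∃ S : {S : Set T // #S ≤ m}, t ∈ S.1 ∧ col S = γ := by
    by_contra hcon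
    push Not at hcon
    choose tt htt using hcon
    have hle : #(Set.range tt) ≤ m := Cardinal.mk_range_le.trans hC
    exact htt (col ⟨Set.range tt, hle⟩) ⟨Set.range tt, hle⟩ ⟨_, rfl⟩ rfl
  obtain ⟨γ, hγ⟩ := hex
  choose S hS hcS using hγ
  refine ⟨S, hS, fun F => ?_⟩
  have h := hcol (F.image S) (by
    intro j hj k hk
    obtain ⟨t, -, rfl⟩ := Finset.mem_image.mp hj
    obtain ⟨t', -, rfl⟩ := Finset.mem_image.mp hk
    rw [hcS, hcS])
  intro h0
  apply h
  rw [← h0]
  congr 1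
  ext x
  simp

end Pool.Agent.Helper24.NW2
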