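import Pool.Agent.Helper24.NW2.Defs


/-!
# Network weight of convex compacta: module SelCov
-/

set_option autoImplicit false
set_option linter.unusedSectionVars false

namespace Pool.Agent.Helper24.NW2

open Set MeasureTheory Cardinal Filter Topology ProbabilityTheory
open scoped ENNReal

universe u

/-- essential supremum of a family of sets -/
theorem exists_ess_union {Ω : Type u} [MeasurableSpace Ω] (P : Measure Ω) [IsProbabilityMeasure P]
    {ι : Type u} (A : ι → Set Ω) (hA : ∀ i, MeasurableSet (A i)) :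
    ∃ J : Set ι, J.Countable ∧ ∀ i, P (A i \ ⋃ j ∈ J, A j) = 0 := by
  set s : ℝ≥0∞ := sSup ((fun J : Set ι => P (⋃ j ∈ J, A j)) '' {J | J.Countable}) with hs
  have hne : ((fun J : Set ι => P (⋃ j ∈ J, A j)) '' {J | J.Countable}).Nonempty :=
    ⟨_, ∅, Set.countable_empty, rfl⟩
  obtain ⟨w, -, hw, hwm⟩ := exists_seq_tendsto_sSup hne (OrderTop.bddAbove _)
  choose J hJc hJ using hwm
  have hle : ∀ K : Set ι, K.Countable → P (⋃ j ∈ K, A j) ≤ s := fun K hK =>
    le_sSup ⟨K, hK, rfl⟩
  set K : Set ι := ⋃ n, J n with hK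
  have hKc : K.Countable := Set.countable_iUnion fun n => hJc n
  have hsK : s ≤ P (⋃ j ∈ K, A j) := by
    refine le_of_tendsto' hw fun n => ?_
    rw [← hJ n]
    exact measure_mono (Set.biUnion_subset_biUnion_left (Set.subset_iUnion J n))
  refine ⟨K, hKc, fun i => ?_⟩
  have hmK : MeasurableSet (⋃ j ∈ K, A j) := MeasurableSet.biUnion hKc fun j _ => hA j
  have h1 : P (⋃ j ∈ insert i K, A j) ≤ s := hle _ (hKc.insert i)
  rw [Set.biUnion_insert] at h1
  have h2 : P (A i ∪ ⋃ j ∈ K, A j) = P (⋃ j ∈ K, A j) + P (A i \ ⋃ j ∈ K, A j) := by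
    rw [← measure_union disjoint_sdiff_right ((hA i).diff hmK)]
    congr 1
    rw [Set.union_sdiff_self, Set.union_comm]
  rw [h2] at h1
  have h3 : P (⋃ j ∈ K, A j) + P (A i \ ⋃ j ∈ K, A j) ≤ P (⋃ j ∈ K, A j) + 0 := by
    rw [add_zero]
    exact h1.trans hsK
  have h4 := (ENNReal.add_le_add_iff_left (measure_ne_top P _)).1 h3
  exact le_antisymm h4 (zero_le)

/-- selection for finite sets if no Radon probability space is covered by `|T|` null sets -/
theorem sel_noCover {Ω : Type u} [TopologicalSpace Ω] [CompactSpace Ω] [T2Space Ω]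
    [MeasurableSpace Ω] [BorelSpace Ω] (P : Measure Ω) [IsProbabilityMeasure P] [P.InnerRegular]
    {T : Type u} (hT0 : ℵ₀ ≤ #T) (hcov : NoCover #T) (Q : Finset T → Set Ω)
    (hQ : ∀ S, MeasurableSet (Q S)) {δ : ℝ≥0∞} (hδ : δ ≠ 0) (hpos : ∀ S, δ ≤ P (Q S)) :
    ∃ S : T → Finset T, (∀ t, t ∈ S t) ∧ ∀ F : Finset T, P (⋂ t ∈ F, Q (S t)) ≠ 0 := by
  classical
  have hinf : Infinite T := Cardinal.infinite_iff.2 hT0
  -- the essential suprema
  have h1 : ∀ t : T, ∃ J : Set {S : Finset T // t ∈ S}, J.Countable ∧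
      ∀ S : {S : Finset T // t ∈ S}, P (Q S.1 \ ⋃ S' ∈ J, Q S'.1) = 0 := fun t =>
    exists_ess_union P (fun S : {S : Finset T // t ∈ S} => Q S.1) fun S => hQ S.1
  choose 𝒮 h𝒮c h𝒮 using h1
  set U : T → Set Ω := fun t => ⋃ S' ∈ 𝒮 t, Q S'.1 with hU
  have hUm : ∀ t, MeasurableSet (U t) := fun t =>
    MeasurableSet.biUnion (h𝒮c t) fun S _ => hQ S.1
  -- the essential infimum
  obtain ⟨T1, hT1c, hT1⟩ := exists_ess_union P (fun t => (U t)ᶜ) fun t => (hUm t).compl
  obtain ⟨t0⟩ : Nonempty T := inferInstance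
  set T0 : Set T := insert t0 T1 with hT0'
  have hT0c : T0.Countable := hT1c.insert t0
  obtain ⟨τ, hτ⟩ := hT0c.exists_eq_range ⟨t0, Set.mem_insert _ _⟩
  set H : Set Ω := ⋂ n, U (τ n) with hH
  have hHm : MeasurableSet H := MeasurableSet.iInter fun n => hUm _
  have hHU : ∀ t, P (H ∩ (U t)ᶜ) = 0 := by
    intro t
    refine measure_mono_null ?_ (hT1 t)
    rintro x ⟨hx1, hx2⟩
    refine ⟨hx2, fun hx3 => ?_⟩
    obtain ⟨t', ht', hx4⟩ := Set.mem_iUnion₂.1 hx3
    have : t' ∈ Set.range τ := by rw [← hτ]; exact Set.mem_insert_of_mem _ ht'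
    obtain ⟨n, rfl⟩ := this
    exact hx4 (Set.mem_iInter.1 hx1 n)
  -- the measure of `H`
  have hHpos : P H ≠ 0 := by
    have h2 : ∀ n : ℕ, δ ≤ P (⋂ k ∈ Finset.range (n + 1), U (τ k)) := by
      intro n
      set S : Finset T := (Finset.range (n + 1)).image τ with hS
      refine (hpos S).trans ?_
      have h3 : P (Q S \ ⋂ k ∈ Finset.range (n + 1), U (τ k)) = 0 := by
        have h4 : Q S \ ⋂ k ∈ Finset.range (n + 1), U (τ k) ⊆
            ⋃ k ∈ Finset.range (n + 1), (Q S \ U (τ k)) := by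
          rintro x ⟨hx1, hx2⟩
          simp only [Set.mem_iInter, not_forall] at hx2
          obtain ⟨k, hk, hx3⟩ := hx2
          exact Set.mem_iUnion₂.2 ⟨k, hk, hx1, hx3⟩
        refine measure_mono_null h4 ?_
        refine (measure_biUnion_null_iff (Finset.countable_toSet _)).2 fun k hk => ?_
        exact h𝒮 (τ k) ⟨S, Finset.mem_image_of_mem _ hk⟩
      calc P (Q S) ≤ P ((Q S \ ⋂ k ∈ Finset.range (n + 1), U (τ k)) ∪
            ⋂ k ∈ Finset.range (n + 1), U (τ k)) := measure_mono (by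
              intro x hx
              by_cases h : x ∈ ⋂ k ∈ Finset.range (n + 1), U (τ k)
              · exact Or.inr h
              · exact Or.inl ⟨hx, h⟩)
        _ ≤ P (Q S \ ⋂ k ∈ Finset.range (n + 1), U (τ k)) +
            P (⋂ k ∈ Finset.range (n + 1), U (τ k)) := measure_union_le _ _
        _ = P (⋂ k ∈ Finset.range (n + 1), U (τ k)) := by rw [h3, zero_add]
    have h5 : H = ⋂ n : ℕ, ⋂ k ∈ Finset.range (n + 1), U (τ k) := by
      ext x
      simp only [hH, Set.mem_iInter]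
      constructor
      · intro h n k _
        exact h k
      · intro h n
        exact h n n (Finset.self_mem_range_succ n)
    have hanti : Antitone fun n : ℕ => ⋂ k ∈ Finset.range (n + 1), U (τ k) := by
      intro m n hmn
      refine Set.biInter_subset_biInter_left ?_
      intro k hk
      exact Finset.mem_range.2 (by have := Finset.mem_range.1 hk; omega)
    have htend := tendsto_measure_iInter_atTop (μ := P)
      (s := fun n : ℕ => ⋂ k ∈ Finset.range (n + 1), U (τ k))
      (fun n => (Finset.measurableSet_biInter _ fun k _ => hUm _).nullMeasurableSet)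
      hanti ⟨0, measure_ne_top P _⟩
    rw [← h5] at htend
    have h6 : δ ≤ P H := ge_of_tendsto' htend h2
    intro h0
    rw [h0] at h6
    exact hδ (le_antisymm h6 (zero_le))
  -- the conditional measure
  have hprob : IsProbabilityMeasure (P[|H]) := cond_isProbabilityMeasure hHpos
  have hreg : (P[|H]).InnerRegular := by
    have h1 : Measure.InnerRegularWRT P IsCompact (fun s => MeasurableSet s ∧ P s ≠ ∞) :=
      Measure.InnerRegularCompactLTTop.innerRegular
    have h2 : (P.restrict H).InnerRegular :=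
      ⟨h1.restrict_of_measure_ne_top (measure_ne_top P H)⟩
    unfold ProbabilityTheory.cond
    infer_instance
  set A : T ⊕ Finset (Finset T) → Set Ω := fun i =>
    match i with
    | Sum.inl t => (U t)ᶜ ∪ Hᶜ
    | Sum.inr G => if P (⋂ S ∈ G, Q S) = 0 then ⋂ S ∈ G, Q S else ∅ with hA
  have hcard : #(T ⊕ Finset (Finset T)) = #T := by
    rw [Cardinal.mk_sum, Cardinal.mk_finset_of_infinite, Cardinal.mk_finset_of_infinite]
    simp only [Cardinal.lift_id]
    exact Cardinal.add_eq_self hT0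
  have hnull : ∀ i, (P[|H]) (A i) = 0 := by
    rintro (t | G)
    · show (P[|H]) ((U t)ᶜ ∪ Hᶜ) = 0
      rw [cond_apply hHm]
      have : H ∩ ((U t)ᶜ ∪ Hᶜ) = H ∩ (U t)ᶜ := by
        ext x
        simp only [Set.mem_inter_iff, Set.mem_union, Set.mem_compl_iff]
        tauto
      rw [this, hHU t, mul_zero]
    · show (P[|H]) (if P (⋂ S ∈ G, Q S) = 0 then ⋂ S ∈ G, Q S else ∅) = 0
      split_ifs with h
      · rw [cond_apply hHm, measure_mono_null Set.inter_subset_right h, mul_zero]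
      · exact measure_empty
  have hne := hcov Ω (P[|H]) (T ⊕ Finset (Finset T)) A hcard hnull
  obtain ⟨x, hx⟩ := (Set.ne_univ_iff_exists_notMem _).1 hne
  simp only [Set.mem_iUnion, not_exists] at hx
  have hxU : ∀ t, x ∈ U t := by
    intro t
    have h2 := hx (Sum.inl t)
    by_contra h3
    exact h2 (Or.inl h3)
  have hxS : ∀ t, ∃ S : Finset T, t ∈ S ∧ x ∈ Q S := by
    intro t
    obtain ⟨S, -, hS⟩ := Set.mem_iUnion₂.1 (hxU t)
    exact ⟨S.1, S.2, hS⟩
  choose S hS1 hS2 using hxS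
  refine ⟨S, hS1, fun F h0 => ?_⟩
  have h2 : (⋂ S' ∈ F.image S, Q S') = ⋂ t ∈ F, Q (S t) := by
    ext y
    simp
  have h3 := hx (Sum.inr (F.image S))
  apply h3
  show x ∈ (if P (⋂ S' ∈ F.image S, Q S') = 0 then ⋂ S' ∈ F.image S, Q S' else ∅)
  rw [h2, if_pos h0]
  simp only [Set.mem_iInter]
  exact fun t _ => hS2 t

end Pool.Agent.Helper24.NW2
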