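import Pool.Agent.Helper24.NW2.Bnd
import Pool.Agent.Helper24.NW2.Sel
import Pool.Agent.Helper24.NW2.SelCov


/-!
# Network weight of convex compacta: module Main
-/

set_option autoImplicit false
set_option linter.unusedSectionVars false
set_option linter.style.haveILetI false

namespace Pool.Agent.Helper24.NW2

open Set MeasureTheory Cardinal Filter Topology ProbabilityTheory
open scoped ENNReal

universe u

open Pool.Agent.Helper50.NW

/-- If no Radon probability space is covered by `κ` null sets, then none is covered by fewer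
null sets. -/
theorem Main_noCover_mono {κ κ' : Cardinal.{u}} (h : κ' ≤ κ) (hκ : NoCover κ) : NoCover κ' := by
  intro Ω _ _ _ _ _ μ _ _ ι A hι hA hcov
  obtain ⟨e⟩ : Nonempty (ι ↪ κ.out) := by
    rw [← Cardinal.le_def, hι, Cardinal.mk_out]
    exact h
  refine hκ Ω μ κ.out (Function.extend e A fun _ => ∅) (Cardinal.mk_out κ) ?_ ?_
  · intro x
    by_cases hx : ∃ i, e i = x
    · obtain ⟨i, rfl⟩ := hx
      rw [e.injective.extend_apply]
      exact hA i
    · rw [Function.extend_apply' _ _ _ hx]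
      exact measure_empty
  · rw [Set.eq_univ_iff_forall] at hcov ⊢
    intro ω
    obtain ⟨i, hi⟩ := Set.mem_iUnion.1 (hcov ω)
    refine Set.mem_iUnion.2 ⟨e i, ?_⟩
    rw [e.injective.extend_apply]
    exact hi

section

variable {E : Type u} [AddCommGroup E] [Module ℝ E] [TopologicalSpace E]
  [IsTopologicalAddGroup E] [ContinuousSMul ℝ E] [LocallyConvexSpace ℝ E] [T2Space E]

theorem netWeight_le_of_noCover {K : Set E} (hK : IsCompact K) {κ : Cardinal.{u}} (hκ : ℵ₀ ≤ κ)
    (hcov : NoCover κ) (hE : netWeight (extremePoints ℝ K) ≤ κ) : netWeight K ≤ κ := by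
  obtain ⟨𝒩, h𝒩, h𝒩c⟩ := exists_network (extremePoints ℝ K)
  have hT : #(𝒩 × ℚ × ℚ) ≤ κ := mk_triples_le hκ (h𝒩c.trans hE)
  refine netWeight_le_of_selection hK h𝒩 (ι := Finset (𝒩 × ℚ × ℚ)) (fun S => (S : Set _)) hκ
    ?_ ?_ ?_
  · rcases finite_or_infinite (𝒩 × ℚ × ℚ) with hfin | hinf
    · haveI := Fintype.ofFinite (𝒩 × ℚ × ℚ)
      exact ((Cardinal.lt_aleph0_iff_finite.2 inferInstance).le).trans hκ
    · rw [Cardinal.mk_finset_of_infinite]
      exact hT
  · intro S
    refine (Cardinal.power_lt_aleph0 ?_ ?_).le.trans hκ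
    · exact_mod_cast Cardinal.natCast_lt_aleph0 (n := 2)
    · exact Cardinal.lt_aleph0_iff_finite.2 (Finset.finite_toSet S)
  · intro μ hμ hμr Q hQ δ hδ hpos
    rcases isEmpty_or_nonempty (𝒩 × ℚ × ℚ) with hemp | hne
    · refine ⟨fun t => isEmptyElim t, fun t => isEmptyElim t, fun F => ?_⟩
      have hF : F = ∅ := Finset.eq_empty_of_isEmpty F
      subst hF
      letI : MeasurableSpace K := borel K
      haveI := hμ
      simp only [Finset.notMem_empty, Set.iInter_of_empty]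
      rw [measure_univ]
      exact one_ne_zero
    · have hinf : Infinite (𝒩 × ℚ × ℚ) := by
        obtain ⟨t⟩ := hne
        haveI : Nonempty 𝒩 := ⟨t.1⟩
        infer_instance
      letI : MeasurableSpace K := borel K
      haveI := hμ
      haveI := hμr
      haveI : BorelSpace K := ⟨rfl⟩
      haveI : CompactSpace K := isCompact_iff_compactSpace.1 hK
      obtain ⟨S, hS1, hS2⟩ := sel_noCover μ (T := 𝒩 × ℚ × ℚ) (Cardinal.aleph0_le_mk _)
        (Main_noCover_mono hT hcov) Q hQ hδ hpos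
      exact ⟨S, hS1, hS2⟩

theorem netWeight_le_two_pow {K : Set E} (hK : IsCompact K) {m : Cardinal.{u}}
    (hm : m ^ ℵ₀ = m) (hm0 : ℵ₀ ≤ m) (hE : netWeight (extremePoints ℝ K) ≤ 2 ^ m) :
    netWeight K ≤ 2 ^ m := by
  have h2m : ℵ₀ ≤ (2 : Cardinal.{u}) ^ m := hm0.trans (Cardinal.cantor m).le
  obtain ⟨𝒩, h𝒩, h𝒩c⟩ := exists_network (extremePoints ℝ K)
  have hT : #(𝒩 × ℚ × ℚ) ≤ 2 ^ m := mk_triples_le h2m (h𝒩c.trans hE)
  refine netWeight_le_of_selection hK h𝒩 (ι := {S : Set (𝒩 × ℚ × ℚ) // #S ≤ m})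
    (fun S => S.1) h2m ?_ ?_ ?_
  · refine (Cardinal.mk_bounded_set_le _ _).trans ?_
    calc (max #(𝒩 × ℚ × ℚ) ℵ₀) ^ m ≤ ((2 : Cardinal.{u}) ^ m) ^ m :=
          Cardinal.power_le_power_right (max_le hT h2m)
      _ = 2 ^ m := by rw [← Cardinal.power_mul, Cardinal.mul_eq_self hm0]
  · intro S
    exact Cardinal.power_le_power_left two_ne_zero S.2
  · intro μ hμ _ Q hQ δ hδ hpos
    letI : MeasurableSpace K := borel K
    haveI := hμ
    obtain ⟨S, hS1, hS2⟩ := sel_pow μ (T := 𝒩 × ℚ × ℚ) hm hm0 hT Q hQ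
      (fun S h0 => hδ (le_antisymm ((hpos S).trans h0.le) zero_le))
    exact ⟨S, hS1, hS2⟩

end

end Pool.Agent.Helper24.NW2
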