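import Pool.Agent.Helper24.NW2.Density
import Pool.Agent.Helper24.NW2.InterPos


/-!
# Network weight of convex compacta: module Product
-/

set_option autoImplicit false
set_option linter.unusedSectionVars false

namespace Pool.Agent.Helper24.NW2

open Set MeasureTheory Cardinal Filter Topology ProbabilityTheory
open scoped ENNReal

universe u

/-- a countable family of points separates a countable family of sets -/
lemma exists_separating {I M : Type u} [Nonempty M] (e : I → Set M) (he : Function.Injective e)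
    {J : Set I} (hJ : J.Countable) :
    ∃ d : ℕ → M, ∀ r ∈ J, ∀ i ∈ J, (∀ k, (d k ∈ e r ↔ d k ∈ e i)) → r = i := by
  classical
  have hx : ∀ p : I × I, ∃ x : M, p.1 ≠ p.2 → ¬ (x ∈ e p.1 ↔ x ∈ e p.2) := by
    intro p
    by_cases hp : p.1 = p.2
    · exact ⟨Classical.arbitrary M, fun h => absurd hp h⟩
    · have : e p.1 ≠ e p.2 := fun h => hp (he h)
      have h2 : ∃ x, ¬ (x ∈ e p.1 ↔ x ∈ e p.2) := by
        by_contra hcon
        push Not at hcon
        exact this (Set.ext fun x => by simpa using hcon x)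
      obtain ⟨x, hx⟩ := h2
      exact ⟨x, fun _ => hx⟩
  choose x hx using hx
  rcases (J ×ˢ J).eq_empty_or_nonempty with h0 | hne
  · refine ⟨fun _ => Classical.arbitrary M, fun r hr i hi _ => ?_⟩
    have : (r, i) ∈ J ×ˢ J := ⟨hr, hi⟩
    rw [h0] at this
    exact absurd this (Set.notMem_empty _)
  · obtain ⟨g, hg⟩ := (hJ.prod hJ).exists_eq_range hne
    refine ⟨fun k => x (g k), fun r hr i hi h => ?_⟩
    have hmem : (r, i) ∈ range g := by
      rw [← hg]
      exact ⟨hr, hi⟩
    obtain ⟨k, hk⟩ := hmem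
    by_contra hri
    have h1 := hx (g k)
    rw [hk] at h1
    have h2 := h k
    simp only [hk] at h2
    exact h1 hri h2

/-- the number of colours -/
lemma mk_colors {M : Type u} (h : #M ^ ℵ₀ = #M) (h0 : ℵ₀ ≤ #M) :
    #((ℕ → M) × (ℕ → List ((ℕ → Bool) × ℚ × Bool))) ≤ #M := by
  have h1 : #(ℕ → M) = #M := by
    rw [Cardinal.mk_arrow]
    simpa using h
  have h2 : (2 : Cardinal.{u}) ^ (ℵ₀ : Cardinal.{u}) ≤ #M := by
    rw [← h]
    refine Cardinal.power_le_power_right ?_
    exact (Cardinal.nat_lt_aleph0 2).le.trans h0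
  have hB : #(ℕ → Bool) = Cardinal.continuum := by
    simp
  have hX : #((ℕ → Bool) × ℚ × Bool) ≤ Cardinal.continuum := by
    rw [Cardinal.mk_prod, Cardinal.mk_prod, hB]
    simp only [Cardinal.lift_id]
    refine Cardinal.mul_le_of_le Cardinal.aleph0_le_continuum le_rfl ?_
    refine Cardinal.mul_le_of_le Cardinal.aleph0_le_continuum ?_ ?_
    · exact (Cardinal.mk_le_aleph0).trans Cardinal.aleph0_le_continuum
    · exact (Cardinal.mk_le_aleph0).trans Cardinal.aleph0_le_continuum
  have hL : #(List ((ℕ → Bool) × ℚ × Bool)) ≤ Cardinal.continuum := by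
    refine (Cardinal.mk_list_le_max _).trans ?_
    exact max_le Cardinal.aleph0_le_continuum hX
  have hS : #(ℕ → List ((ℕ → Bool) × ℚ × Bool)) ≤ Cardinal.continuum := by
    rw [Cardinal.mk_arrow]
    simp only [Cardinal.lift_id, Cardinal.mk_nat, Cardinal.lift_aleph0]
    refine (Cardinal.power_le_power_right hL).trans ?_
    rw [Cardinal.continuum_power_aleph0]
  rw [Cardinal.mk_prod, h1]
  have h3 : Cardinal.lift.{u} #(ℕ → List ((ℕ → Bool) × ℚ × Bool)) ≤ #M := by
    refine (Cardinal.lift_le.2 hS).trans ?_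
    rw [Cardinal.lift_continuum, ← Cardinal.two_power_aleph0]
    exact h2
  simp only [Cardinal.lift_id', Cardinal.lift_uzero]
  exact Cardinal.mul_le_of_le h0 le_rfl h3

/-- the measure algebra of a product of at most `2^m` intervals is `m`-centered if `m^ω = m` -/
theorem product_coloring {I J : Type u} {m : Cardinal.{u}} (hm : m ^ ℵ₀ = m) (hm0 : ℵ₀ ≤ m)
    (hI : #I ≤ 2 ^ m)
    (b : J → Set (I → ℝ)) (hb : ∀ j, MeasurableSet (b j)) (hpos : ∀ j, Lam I (b j) ≠ 0) :
    ∃ (C : Type u) (col : J → C), #C ≤ m ∧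
      ∀ F : Finset J, (∀ j ∈ F, ∀ k ∈ F, col j = col k) → Lam I (⋂ j ∈ F, b j) ≠ 0 := by
  classical
  obtain ⟨M, rfl⟩ : ∃ M : Type u, #M = m := ⟨m.out, Cardinal.mk_out m⟩
  have : Nonempty M := by
    rw [← Cardinal.mk_ne_zero_iff]
    exact (Cardinal.aleph0_pos.trans_le hm0).ne'
  obtain ⟨e, he⟩ : ∃ e : I → Set M, Function.Injective e := by
    rw [← Cardinal.mk_set] at hI
    obtain ⟨f⟩ := (Cardinal.le_def _ _).1 hI
    exact ⟨f, f.injective⟩
  choose S hS hSb using fun j => exists_countable_sig (hb j)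
  have hbox : ∀ (j : J) (n : ℕ), ∃ l : List (I × ℚ × Bool), (∀ c ∈ l, c.1 ∈ S j) ∧
      Lam I (box l) ≠ 0 ∧ Lam I (box l \ b j) < (n : ℝ≥0∞)⁻¹ * Lam I (box l) := by
    intro j n
    exact exists_box (hSb j) (hpos j) (ENNReal.inv_ne_zero.2 (ENNReal.natCast_ne_top n))
  choose l hl1 hl2 hl3 using hbox
  choose d hd using fun j => exists_separating e he (hS j)
  set code : J → (ℕ → M) × (ℕ → List ((ℕ → Bool) × ℚ × Bool)) := fun j =>
    (d j, fun n => (l j n).map (fun c => (fun k => decide (d j k ∈ e c.1), c.2))) with hcode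
  refine ⟨_, code, mk_colors hm hm0, fun F hF => ?_⟩
  rcases F.eq_empty_or_nonempty with rfl | hne
  · simp
  · set n := F.card with hn
    have hn0 : 0 < n := hne.card_pos
    have : Nonempty (Fin n) := ⟨⟨0, hn0⟩⟩
    set φ : Fin n → J := fun k => (F.equivFin.symm k : J) with hφ
    have hφF : ∀ k, φ k ∈ F := fun k => (F.equivFin.symm k).2
    have hcol : ∀ k k', code (φ k) = code (φ k') := fun k k' => hF _ (hφF k) _ (hφF k')
    have hd' : ∀ k k', d (φ k) = d (φ k') := fun k k' => congrArg Prod.fst (hcol k k')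
    have hl' : ∀ k k', (l (φ k) n).map (fun c => (fun i => decide (d (φ k) i ∈ e c.1), c.2)) =
        (l (φ k') n).map (fun c => (fun i => decide (d (φ k') i ∈ e c.1), c.2)) :=
      fun k k' => congrFun (congrArg Prod.snd (hcol k k')) n
    have hmain := inter_pos (κ := Fin n) (fun k => b (φ k)) (fun k => S (φ k))
      (fun k => hSb (φ k)) (fun k => l (φ k) n) (fun k => hl1 (φ k) n) ?_ ?_
      (fun k => hl2 (φ k) n) ?_
    · have : (⋂ k, b (φ k)) = ⋂ j ∈ F, b j := by
        ext v
        simp only [mem_iInter]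
        constructor
        · intro h j hj
          have := h (F.equivFin ⟨j, hj⟩)
          simpa [hφ] using this
        · intro h k
          exact h _ (hφF k)
      rwa [this] at hmain
    · intro k k'
      have h1 := congrArg (List.map Prod.snd) (hl' k k')
      simp only [List.map_map] at h1
      exact h1
    · intro k k' t c c' hc hc' hmem
      have h1 := congrArg (fun L => L[t]?) (hl' k k')
      simp only [List.getElem?_map, hc, hc', Option.map_some, Option.some.injEq,
        Prod.mk.injEq] at h1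
      have hcmem : c.1 ∈ S (φ k) := hl1 (φ k) n c (List.mem_of_getElem? hc)
      refine hd (φ k) c'.1 hmem c.1 hcmem fun i => ?_
      have h2 := congrFun h1.1 i
      rw [decide_eq_decide] at h2
      rw [hd' k k'] at h2 ⊢
      exact h2.symm
    · intro k
      have := hl3 (φ k) n
      simpa using this

end Pool.Agent.Helper24.NW2
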