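import Pool.Agent.Helper24.NW2.Defs


/-!
# Network weight of convex compacta: module Supp
-/

set_option autoImplicit false
set_option linter.unusedSectionVars false

namespace Pool.Agent.Helper24.NW2

open Set MeasureTheory Cardinal Filter Topology ProbabilityTheory
open scoped ENNReal

universe u

theorem sig_mono {I : Type u} {J J' : Set I} (h : J ⊆ J') : sig J ≤ sig J' :=
  biSup_mono h

theorem sig_le {I : Type u} (J : Set I) : sig J ≤ (MeasurableSpace.pi : MeasurableSpace (I → ℝ)) :=
  iSup₂_le fun i _ => le_iSup (fun i : I => MeasurableSpace.comap (fun v : I → ℝ => v i)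
    inferInstance) i

/-- the `σ`-algebra of the sets which depend on countably many coordinates -/
@[reducible] def Supp_ms (I : Type u) : MeasurableSpace (I → ℝ) where
  MeasurableSet' b := ∃ J : Set I, J.Countable ∧ MeasurableSet[sig J] b
  measurableSet_empty := ⟨∅, Set.countable_empty, @MeasurableSet.empty _ (sig ∅)⟩
  measurableSet_compl := by
    rintro b ⟨J, hJ, hb⟩
    exact ⟨J, hJ, @MeasurableSet.compl _ _ (sig J) hb⟩
  measurableSet_iUnion := by
    intro f hf
    choose J hJ hb using hf
    refine ⟨⋃ i, J i, Set.countable_iUnion hJ, ?_⟩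
    exact @MeasurableSet.iUnion _ _ (sig (⋃ i, J i)) _ _ fun i =>
      sig_mono (Set.subset_iUnion J i) _ (hb i)

/-- a measurable set of the product depends on countably many coordinates -/
theorem exists_countable_sig {I : Type u} {b : Set (I → ℝ)} (hb : MeasurableSet b) :
    ∃ J : Set I, J.Countable ∧ MeasurableSet[sig J] b := by
  have h1 : (MeasurableSpace.pi : MeasurableSpace (I → ℝ)) ≤ Supp_ms I := by
    refine iSup_le fun i => ?_
    intro s hs
    refine ⟨{i}, Set.countable_singleton i, ?_⟩
    exact le_iSup₂ (f := fun (j : I) (_ : j ∈ ({i} : Set I)) =>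
      MeasurableSpace.comap (fun v : I → ℝ => v j) inferInstance) i rfl s hs
  exact h1 b hb

theorem measurableSet_box {I : Type u} {J : Set I} {l : List (I × ℚ × Bool)}
    (hl : ∀ c ∈ l, c.1 ∈ J) : MeasurableSet[sig J] (box l) := by
  induction l with
  | nil =>
    have h1 : box ([] : List (I × ℚ × Bool)) = Set.univ := by
      ext v
      simp [box]
    rw [h1]
    exact @MeasurableSet.univ _ (sig J)
  | cons c l ih =>
    have h1 : box (c :: l) = {v : I → ℝ | (v c.1 < (c.2.1 : ℝ) ↔ c.2.2 = true)} ∩ box l := by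
      ext v
      simp only [box, Set.mem_ofPred_eq, Set.mem_inter_iff, List.forall_mem_cons]
    rw [h1]
    refine @MeasurableSet.inter _ (sig J) _ _ ?_ (ih fun d hd => hl d (List.mem_cons_of_mem c hd))
    have hc : c.1 ∈ J := hl c List.mem_cons_self
    have h2 : MeasurableSet[sig J] {v : I → ℝ | v c.1 < (c.2.1 : ℝ)} :=
      le_iSup₂ (f := fun (j : I) (_ : j ∈ J) =>
        MeasurableSpace.comap (fun v : I → ℝ => v j) inferInstance) c.1 hc _
        ⟨Set.Iio (c.2.1 : ℝ), measurableSet_Iio, rfl⟩
    rcases hb : c.2.2 with _ | _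
    · have h3 : {v : I → ℝ | (v c.1 < (c.2.1 : ℝ) ↔ false = true)} =
          {v : I → ℝ | v c.1 < (c.2.1 : ℝ)}ᶜ := by
        ext v
        simp
      rw [h3]
      exact @MeasurableSet.compl _ _ (sig J) h2
    · have h3 : {v : I → ℝ | (v c.1 < (c.2.1 : ℝ) ↔ true = true)} =
          {v : I → ℝ | v c.1 < (c.2.1 : ℝ)} := by
        ext v
        simp
      rw [h3]
      exact h2

/-- disjoint sets of coordinates are independent -/
theorem indep_sig {I : Type u} {J J' : Set I} (h : Disjoint J J') {A B : Set (I → ℝ)}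
    (hA : MeasurableSet[sig J] A) (hB : MeasurableSet[sig J'] B) :
    Lam I (A ∩ B) = Lam I A * Lam I B := by
  have h1 : iIndepFun (fun (i : I) (v : I → ℝ) => v i) (Lam I) :=
    iIndepFun_infinitePi (X := fun _ x => x) (fun _ => measurable_id)
  have h2 : Indep (sig J) (sig J') (Lam I) :=
    indep_iSup_of_disjoint (fun i => (measurable_pi_apply i).comap_le) h1 h
  exact (Indep_iff _ _ _).1 h2 A B hA hB

end Pool.Agent.Helper24.NW2
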